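import Mathlib

/-!
# The closed curve and the ruling used for the algebraic flat Moebius strip

Everything is a homogeneous polynomial in `c = cos φ`, `s = sin φ`, divided by a power of
`q = √(4 c² + 64 s²)`.
-/

open Real
open scoped ContDiff

noncomputable section

namespace MoebAlg

/-- The constant `√42`. -/
def kk : ℝ := √42

lemma kk_sq : kk ^ 2 = 42 := by
  unfold kk; exact Real.sq_sqrt (by norm_num)

lemma kk_pos : 0 < kk := by unfold kk; positivity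

lemma kk_ne : kk ≠ 0 := kk_pos.ne'

/-- first coordinate of the centre line -/
def M1 (φ : ℝ) : ℝ :=
  kk * (-4 * cos φ ^ 5 * sin φ - 40 / 3 * cos φ ^ 3 * sin φ ^ 3 - 20 * cos φ * sin φ ^ 5)
/-- second coordinate of the centre line -/
def M2 (φ : ℝ) : ℝ :=
  kk * (-(10 / 3) * cos φ ^ 6 - 10 * cos φ ^ 4 * sin φ ^ 2 - 10 * cos φ ^ 2 * sin φ ^ 4
    + 22 / 3 * sin φ ^ 6)
/-- third coordinate of the centre line -/
def M3 (φ : ℝ) : ℝ :=
  -38 * cos φ ^ 5 * sin φ - 96 * cos φ ^ 3 * sin φ ^ 3 - 58 * cos φ * sin φ ^ 5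
/-- derivative of `M1` -/
def N1 (φ : ℝ) : ℝ :=
  kk * (-4 * cos φ ^ 6 - 20 * cos φ ^ 4 * sin φ ^ 2 - 60 * cos φ ^ 2 * sin φ ^ 4
    + 20 * sin φ ^ 6)
/-- derivative of `M2` -/
def N2 (φ : ℝ) : ℝ := kk * (64 * cos φ * sin φ ^ 5)
/-- derivative of `M3` -/
def N3 (φ : ℝ) : ℝ :=
  -38 * cos φ ^ 6 - 98 * cos φ ^ 4 * sin φ ^ 2 - 2 * cos φ ^ 2 * sin φ ^ 4 + 58 * sin φ ^ 6
/-- speed of the centre line -/
def rho (φ : ℝ) : ℝ :=
  46 * cos φ ^ 6 + 154 * cos φ ^ 4 * sin φ ^ 2 + 250 * cos φ ^ 2 * sin φ ^ 4 + 142 * sin φ ^ 6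
/-- `δ = 4 cos² + 64 sin²` -/
def del (φ : ℝ) : ℝ := 4 * cos φ ^ 2 + 64 * sin φ ^ 2
/-- `q = √δ` -/
def qq (φ : ℝ) : ℝ := √(del φ)
/-- numerator of the first coordinate of the ruling -/
def R1 (φ : ℝ) : ℝ :=
  120 * cos φ ^ 6 * sin φ + 440 * cos φ ^ 4 * sin φ ^ 3 - 728 * cos φ ^ 2 * sin φ ^ 5
    - 88 * sin φ ^ 7
/-- numerator of the second coordinate of the ruling -/
def R2 (φ : ℝ) : ℝ :=
  -8 * cos φ ^ 7 - 208 * cos φ ^ 5 * sin φ ^ 2 - 1160 * cos φ ^ 3 * sin φ ^ 4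
/-- numerator of the third coordinate of the ruling -/
def R3 (φ : ℝ) : ℝ :=
  kk / 42 * (1140 * cos φ ^ 6 * sin φ + 3260 * cos φ ^ 4 * sin φ ^ 3
    + 5500 * cos φ ^ 2 * sin φ ^ 5 + 3380 * sin φ ^ 7)
/-- numerator of `w` -/
def Wn (φ : ℝ) : ℝ :=
  kk / 42 * (-1380 * cos φ ^ 6 * sin φ - 4300 * cos φ ^ 4 * sin φ ^ 3
    - 2060 * cos φ ^ 2 * sin φ ^ 5 + 860 * sin φ ^ 7)
/-- arc length of the centre line -/
def SS (φ : ℝ) : ℝ := 84 * φ + M3 φ
/-- the tangential component of the ruling -/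
def ww (φ : ℝ) : ℝ := Wn φ / qq φ ^ 3
/-- the factor in `D' = μ M'` -/
def mu (φ : ℝ) : ℝ :=
  -(20 * kk / 7) * cos φ * (cos φ ^ 2 - 29 * sin φ ^ 2) / qq φ ^ 5
/-- first coordinate of the ruling -/
def D1 (φ : ℝ) : ℝ := R1 φ / qq φ ^ 3
/-- second coordinate of the ruling -/
def D2 (φ : ℝ) : ℝ := R2 φ / qq φ ^ 3
/-- third coordinate of the ruling -/
def D3 (φ : ℝ) : ℝ := R3 φ / qq φ ^ 3

lemma del_pos (φ : ℝ) : 0 < del φ := by
  have h := sin_sq_add_cos_sq φ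
  unfold del; nlinarith [sq_nonneg (sin φ), sq_nonneg (cos φ)]

lemma qq_pos (φ : ℝ) : 0 < qq φ := Real.sqrt_pos.mpr (del_pos φ)

lemma qq_ne (φ : ℝ) : qq φ ≠ 0 := (qq_pos φ).ne'

lemma qq_sq (φ : ℝ) : qq φ ^ 2 = del φ := Real.sq_sqrt (del_pos φ).le

lemma rho_ge (φ : ℝ) : 46 ≤ rho φ := by
  have h := sin_sq_add_cos_sq φ
  have h3 : (sin φ ^ 2 + cos φ ^ 2) ^ 3 = 1 := by rw [h]; norm_num
  unfold rho
  have e1 : 0 ≤ cos φ ^ 4 * sin φ ^ 2 := by positivity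
  have e2 : 0 ≤ cos φ ^ 2 * sin φ ^ 4 := by positivity
  have e3 : 0 ≤ sin φ ^ 6 := by positivity
  nlinarith

/-! ### the algebraic identities -/

lemma id_speed (φ : ℝ) : N1 φ ^ 2 + N2 φ ^ 2 + N3 φ ^ 2 = rho φ ^ 2 := by
  have hk := kk_sq
  simp only [N1, N2, N3, rho]
  linear_combination
    ((-4 * cos φ ^ 6 - 20 * cos φ ^ 4 * sin φ ^ 2 - 60 * cos φ ^ 2 * sin φ ^ 4
      + 20 * sin φ ^ 6) ^ 2 + (64 * cos φ * sin φ ^ 5) ^ 2) * hk

lemma id_inner_num (φ : ℝ) : R1 φ * N1 φ + R2 φ * N2 φ + R3 φ * N3 φ = Wn φ * rho φ := by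
  simp only [N1, N2, N3, rho, R1, R2, R3, Wn]
  ring

lemma id_norm_num (φ : ℝ) : R1 φ ^ 2 + R2 φ ^ 2 + R3 φ ^ 2 = del φ ^ 3 + Wn φ ^ 2 := by
  have hk := kk_sq
  have h := sin_sq_add_cos_sq φ
  have h4 : (sin φ ^ 2 + cos φ ^ 2) ^ 4 = 1 := by rw [h]; norm_num
  have key : R1 φ ^ 2 + R2 φ ^ 2 + R3 φ ^ 2
      = del φ ^ 3 * (sin φ ^ 2 + cos φ ^ 2) ^ 4 + Wn φ ^ 2 := by
    simp only [R1, R2, R3, Wn, del]
    linear_combination
      ((1 / 42 * (1140 * cos φ ^ 6 * sin φ + 3260 * cos φ ^ 4 * sin φ ^ 3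
        + 5500 * cos φ ^ 2 * sin φ ^ 5 + 3380 * sin φ ^ 7)) ^ 2
       - (1 / 42 * (-1380 * cos φ ^ 6 * sin φ - 4300 * cos φ ^ 4 * sin φ ^ 3
        - 2060 * cos φ ^ 2 * sin φ ^ 5 + 860 * sin φ ^ 7)) ^ 2) * hk
  rw [key, h4, mul_one]

lemma id_inner (φ : ℝ) : D1 φ * N1 φ + D2 φ * N2 φ + D3 φ * N3 φ = ww φ * rho φ := by
  have h := id_inner_num φ
  have hq := qq_ne φ
  unfold D1 D2 D3 ww
  field_simp
  linear_combination h

lemma id_norm (φ : ℝ) : D1 φ ^ 2 + D2 φ ^ 2 + D3 φ ^ 2 = 1 + ww φ ^ 2 := by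
  have h := id_norm_num φ
  have hq := qq_ne φ
  have hs := qq_sq φ
  unfold D1 D2 D3 ww
  rw [← hs] at h
  field_simp
  linear_combination h

/-! ### derivatives -/

lemma hasDerivAt_M1 (φ : ℝ) : HasDerivAt M1 (N1 φ) φ := by
  have hc := Real.hasDerivAt_cos φ
  have hs := Real.hasDerivAt_sin φ
  have h := ((((hc.pow 5).const_mul (-4)).mul hs).sub
    (((hc.pow 3).const_mul (40 / 3)).mul (hs.pow 3))).sub
    ((hc.const_mul 20).mul (hs.pow 5))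
  have h2 := h.const_mul kk
  refine (h2.congr_deriv ?_).congr_of_eventuallyEq ?_
  · simp only [N1, Pi.pow_apply]; push_cast; ring
  · filter_upwards with x
    simp [M1]

lemma hasDerivAt_M2 (φ : ℝ) : HasDerivAt M2 (N2 φ) φ := by
  have hc := Real.hasDerivAt_cos φ
  have hs := Real.hasDerivAt_sin φ
  have h := ((((hc.pow 6).const_mul (-(10 / 3))).sub
    (((hc.pow 4).const_mul 10).mul (hs.pow 2))).sub
    (((hc.pow 2).const_mul 10).mul (hs.pow 4))).add ((hs.pow 6).const_mul (22 / 3))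
  have h2 := h.const_mul kk
  refine (h2.congr_deriv ?_).congr_of_eventuallyEq ?_
  · simp only [N2, Pi.pow_apply]; push_cast; ring
  · filter_upwards with x
    simp [M2]

lemma hasDerivAt_M3 (φ : ℝ) : HasDerivAt M3 (N3 φ) φ := by
  have hc := Real.hasDerivAt_cos φ
  have hs := Real.hasDerivAt_sin φ
  have h := ((((hc.pow 5).const_mul (-38)).mul hs).sub
    (((hc.pow 3).const_mul 96).mul (hs.pow 3))).sub
    ((hc.const_mul 58).mul (hs.pow 5))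
  refine (h.congr_deriv ?_).congr_of_eventuallyEq ?_
  · simp only [N3, Pi.pow_apply]; push_cast; ring
  · filter_upwards with x
    simp [M3]

lemma hasDerivAt_del (φ : ℝ) : HasDerivAt del (120 * (sin φ * cos φ)) φ := by
  have hc := Real.hasDerivAt_cos φ
  have hs := Real.hasDerivAt_sin φ
  have h := ((hc.pow 2).const_mul 4).add ((hs.pow 2).const_mul 64)
  refine (h.congr_deriv ?_).congr_of_eventuallyEq ?_
  · push_cast; ring
  · filter_upwards with x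
    simp [del]

lemma hasDerivAt_qq (φ : ℝ) : HasDerivAt qq (60 * (sin φ * cos φ) / qq φ) φ := by
  have h := (hasDerivAt_del φ).sqrt (del_pos φ).ne'
  refine h.congr_deriv ?_
  unfold qq; ring

/-- the derivative of `R / q³`, given the key identity -/
lemma hasDerivAt_quot {R R' N : ℝ → ℝ} {φ : ℝ} (hR : HasDerivAt R (R' φ) φ)
    (key : R' φ * del φ - 180 * (sin φ * cos φ) * R φ
      = -(20 * kk / 7) * cos φ * (cos φ ^ 2 - 29 * sin φ ^ 2) * N φ) :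
    HasDerivAt (fun x => R x / qq x ^ 3) (mu φ * N φ) φ := by
  have hq := hasDerivAt_qq φ
  have hqn := qq_ne φ
  have h := hR.div (hq.pow 3) (pow_ne_zero 3 hqn)
  refine h.congr_deriv ?_
  have hs := qq_sq φ
  rw [← hs] at key
  unfold mu
  simp only [Pi.pow_apply]
  field_simp
  push_cast
  linear_combination 7 * qq φ ^ 2 * key

/-- derivative of `R1` -/
def R1' (φ : ℝ) : ℝ :=
  120 * cos φ ^ 7 + 600 * cos φ ^ 5 * sin φ ^ 2 - 5400 * cos φ ^ 3 * sin φ ^ 4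
    + 840 * cos φ * sin φ ^ 6
/-- derivative of `R2` -/
def R2' (φ : ℝ) : ℝ :=
  -360 * cos φ ^ 6 * sin φ - 3600 * cos φ ^ 4 * sin φ ^ 3 + 3480 * cos φ ^ 2 * sin φ ^ 5
/-- derivative of `R3` -/
def R3' (φ : ℝ) : ℝ :=
  kk / 42 * (1140 * cos φ ^ 7 + 2940 * cos φ ^ 5 * sin φ ^ 2 + 14460 * cos φ ^ 3 * sin φ ^ 4
    + 12660 * cos φ * sin φ ^ 6)
/-- derivative of `Wn` -/
def Wn' (φ : ℝ) : ℝ :=
  kk / 42 * (-1380 * cos φ ^ 7 - 4620 * cos φ ^ 5 * sin φ ^ 2 + 6900 * cos φ ^ 3 * sin φ ^ 4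
    + 10140 * cos φ * sin φ ^ 6)

lemma hasDerivAt_R1 (φ : ℝ) : HasDerivAt R1 (R1' φ) φ := by
  have hc := Real.hasDerivAt_cos φ
  have hs := Real.hasDerivAt_sin φ
  have h := (((((hc.pow 6).const_mul 120).mul hs).add
    (((hc.pow 4).const_mul 440).mul (hs.pow 3))).sub
    (((hc.pow 2).const_mul 728).mul (hs.pow 5))).sub ((hs.pow 7).const_mul 88)
  refine (h.congr_deriv ?_).congr_of_eventuallyEq ?_
  · simp only [R1', Pi.pow_apply]; push_cast; ring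
  · filter_upwards with x
    simp [R1]

lemma hasDerivAt_R2 (φ : ℝ) : HasDerivAt R2 (R2' φ) φ := by
  have hc := Real.hasDerivAt_cos φ
  have hs := Real.hasDerivAt_sin φ
  have h := ((((hc.pow 7).const_mul (-8))).sub
    (((hc.pow 5).const_mul 208).mul (hs.pow 2))).sub
    (((hc.pow 3).const_mul 1160).mul (hs.pow 4))
  refine (h.congr_deriv ?_).congr_of_eventuallyEq ?_
  · simp only [R2', Pi.pow_apply]; push_cast; ring
  · filter_upwards with x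
    simp [R2]

lemma hasDerivAt_R3 (φ : ℝ) : HasDerivAt R3 (R3' φ) φ := by
  have hc := Real.hasDerivAt_cos φ
  have hs := Real.hasDerivAt_sin φ
  have h := (((((hc.pow 6).const_mul 1140).mul hs).add
    (((hc.pow 4).const_mul 3260).mul (hs.pow 3))).add
    (((hc.pow 2).const_mul 5500).mul (hs.pow 5))).add ((hs.pow 7).const_mul 3380)
  have h2 := h.const_mul (kk / 42)
  refine (h2.congr_deriv ?_).congr_of_eventuallyEq ?_
  · simp only [R3', Pi.pow_apply]; push_cast; ring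
  · filter_upwards with x
    simp [R3]

lemma hasDerivAt_Wn (φ : ℝ) : HasDerivAt Wn (Wn' φ) φ := by
  have hc := Real.hasDerivAt_cos φ
  have hs := Real.hasDerivAt_sin φ
  have h := (((((hc.pow 6).const_mul (-1380)).mul hs).sub
    (((hc.pow 4).const_mul 4300).mul (hs.pow 3))).sub
    (((hc.pow 2).const_mul 2060).mul (hs.pow 5))).add ((hs.pow 7).const_mul 860)
  have h2 := h.const_mul (kk / 42)
  refine (h2.congr_deriv ?_).congr_of_eventuallyEq ?_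
  · simp only [Wn', Pi.pow_apply]; push_cast; ring
  · filter_upwards with x
    simp [Wn]

lemma hasDerivAt_D1 (φ : ℝ) : HasDerivAt D1 (mu φ * N1 φ) φ := by
  refine hasDerivAt_quot (R' := R1') (hasDerivAt_R1 φ) ?_
  have hk := kk_sq
  simp only [R1', R1, N1, del]
  linear_combination (20 / 7) * cos φ * (cos φ ^ 2 - 29 * sin φ ^ 2) *
    (-4 * cos φ ^ 6 - 20 * cos φ ^ 4 * sin φ ^ 2 - 60 * cos φ ^ 2 * sin φ ^ 4
    + 20 * sin φ ^ 6) * hk

lemma hasDerivAt_D2 (φ : ℝ) : HasDerivAt D2 (mu φ * N2 φ) φ := by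
  refine hasDerivAt_quot (R' := R2') (hasDerivAt_R2 φ) ?_
  have hk := kk_sq
  simp only [R2', R2, N2, del]
  linear_combination (20 / 7) * cos φ * (cos φ ^ 2 - 29 * sin φ ^ 2) *
    (64 * cos φ * sin φ ^ 5) * hk

lemma hasDerivAt_D3 (φ : ℝ) : HasDerivAt D3 (mu φ * N3 φ) φ := by
  refine hasDerivAt_quot (R' := R3') (hasDerivAt_R3 φ) ?_
  simp only [R3', R3, N3, del]
  ring

lemma hasDerivAt_ww (φ : ℝ) : HasDerivAt ww (mu φ * rho φ) φ := by
  refine hasDerivAt_quot (R' := Wn') (hasDerivAt_Wn φ) ?_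
  simp only [Wn', Wn, rho, del]
  ring

lemma hasDerivAt_SS (φ : ℝ) : HasDerivAt SS (rho φ) φ := by
  have h := ((hasDerivAt_id φ).const_mul 84).add (hasDerivAt_M3 φ)
  refine (h.congr_deriv ?_).congr_of_eventuallyEq ?_
  · have h1 := sin_sq_add_cos_sq φ
    have h3 : (sin φ ^ 2 + cos φ ^ 2) ^ 3 = 1 := by rw [h1]; norm_num
    simp only [N3, rho]
    linear_combination -84 * h3
  · filter_upwards with x
    simp [SS]

/-! ### smoothness -/

lemma contDiff_del {n : WithTop ℕ∞} : ContDiff ℝ n del := by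
  unfold del
  exact (contDiff_const.mul (contDiff_cos.pow 2)).add (contDiff_const.mul (contDiff_sin.pow 2))

lemma contDiff_qq {n : WithTop ℕ∞} : ContDiff ℝ n qq := by
  unfold qq
  exact contDiff_del.sqrt (fun x => (del_pos x).ne')

lemma contDiff_quot {n : WithTop ℕ∞} {R : ℝ → ℝ} (hR : ContDiff ℝ n R) :
    ContDiff ℝ n (fun x => R x / qq x ^ 3) :=
  hR.div (contDiff_qq.pow 3) (fun x => pow_ne_zero 3 (qq_ne x))

lemma contDiff_M1 {n : WithTop ℕ∞} : ContDiff ℝ n M1 := by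
  unfold M1; fun_prop

lemma contDiff_M2 {n : WithTop ℕ∞} : ContDiff ℝ n M2 := by
  unfold M2; fun_prop

lemma contDiff_M3 {n : WithTop ℕ∞} : ContDiff ℝ n M3 := by
  unfold M3; fun_prop

lemma contDiff_SS : ContDiff ℝ ∞ SS := by
  unfold SS
  exact (contDiff_const.mul contDiff_id).add contDiff_M3

lemma contDiff_D1 {n : WithTop ℕ∞} : ContDiff ℝ n D1 := by
  refine contDiff_quot ?_
  unfold R1; fun_prop

lemma contDiff_D2 {n : WithTop ℕ∞} : ContDiff ℝ n D2 := by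
  refine contDiff_quot ?_
  unfold R2; fun_prop

lemma contDiff_D3 {n : WithTop ℕ∞} : ContDiff ℝ n D3 := by
  refine contDiff_quot ?_
  unfold R3; fun_prop

lemma contDiff_ww : ContDiff ℝ ∞ ww := by
  refine contDiff_quot ?_
  unfold Wn; fun_prop

/-! ### periodicity -/

lemma M1_add_pi (φ : ℝ) : M1 (φ + π) = M1 φ := by
  simp only [M1, cos_add_pi, sin_add_pi]; ring
lemma M2_add_pi (φ : ℝ) : M2 (φ + π) = M2 φ := by
  simp only [M2, cos_add_pi, sin_add_pi]; ring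
lemma M3_add_pi (φ : ℝ) : M3 (φ + π) = M3 φ := by
  simp only [M3, cos_add_pi, sin_add_pi]; ring
lemma qq_add_pi (φ : ℝ) : qq (φ + π) = qq φ := by
  simp only [qq, del, cos_add_pi, sin_add_pi, neg_sq]
lemma D1_add_pi (φ : ℝ) : D1 (φ + π) = -D1 φ := by
  simp only [D1, R1, qq_add_pi, cos_add_pi, sin_add_pi]; ring
lemma D2_add_pi (φ : ℝ) : D2 (φ + π) = -D2 φ := by
  simp only [D2, R2, qq_add_pi, cos_add_pi, sin_add_pi]; ring
lemma D3_add_pi (φ : ℝ) : D3 (φ + π) = -D3 φ := by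
  simp only [D3, R3, qq_add_pi, cos_add_pi, sin_add_pi]; ring
lemma ww_add_pi (φ : ℝ) : ww (φ + π) = -ww φ := by
  simp only [ww, Wn, qq_add_pi, cos_add_pi, sin_add_pi]; ring
lemma SS_add_pi (φ : ℝ) : SS (φ + π) = SS φ + 84 * π := by
  simp only [SS, M3_add_pi]; ring

/-! ### injectivity of the centre line modulo `π` -/

lemma M2_eq (φ : ℝ) : M2 φ = kk * (-(cos (2 * φ) ^ 3 - 3 * cos (2 * φ) * sin (2 * φ) ^ 2) / 3
    + 2 * (cos (2 * φ) ^ 2 - sin (2 * φ) ^ 2) - 5 * cos (2 * φ)) := by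
  have h1 := sin_sq_add_cos_sq φ
  have hX : cos (2 * φ) = cos φ ^ 2 - sin φ ^ 2 := by
    rw [cos_two_mul]; linear_combination h1
  have hY : sin (2 * φ) = 2 * sin φ * cos φ := sin_two_mul φ
  have key : M2 φ = kk * (-(cos (2 * φ) ^ 3 - 3 * cos (2 * φ) * sin (2 * φ) ^ 2) / 3
    + 2 * (cos (2 * φ) ^ 2 - sin (2 * φ) ^ 2) * (sin φ ^ 2 + cos φ ^ 2)
    - 5 * cos (2 * φ) * (sin φ ^ 2 + cos φ ^ 2) ^ 2) := by
    rw [hX, hY]; simp only [M2]; ring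
  rw [key, h1]; ring

lemma M1_eq (φ : ℝ) : M1 φ = kk * (-(3 * cos (2 * φ) ^ 2 * sin (2 * φ) - sin (2 * φ) ^ 3) / 3
    + 4 * (cos (2 * φ) * sin (2 * φ)) - 5 * sin (2 * φ)) := by
  have h1 := sin_sq_add_cos_sq φ
  have hX : cos (2 * φ) = cos φ ^ 2 - sin φ ^ 2 := by
    rw [cos_two_mul]; linear_combination h1
  have hY : sin (2 * φ) = 2 * sin φ * cos φ := sin_two_mul φ
  have key : M1 φ = kk * (-(3 * cos (2 * φ) ^ 2 * sin (2 * φ) - sin (2 * φ) ^ 3) / 3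
    + 4 * (cos (2 * φ) * sin (2 * φ)) * (sin φ ^ 2 + cos φ ^ 2)
    - 5 * sin (2 * φ) * (sin φ ^ 2 + cos φ ^ 2) ^ 2) := by
    rw [hX, hY]; simp only [M1]; ring
  rw [key, h1]; ring

lemma planar_inj {X Y X' Y' : ℝ} (h : X ^ 2 + Y ^ 2 = 1) (h' : X' ^ 2 + Y' ^ 2 = 1)
    (e2 : -(X ^ 3 - 3 * X * Y ^ 2) / 3 + 2 * (X ^ 2 - Y ^ 2) - 5 * X
      = -(X' ^ 3 - 3 * X' * Y' ^ 2) / 3 + 2 * (X' ^ 2 - Y' ^ 2) - 5 * X')
    (e1 : -(3 * X ^ 2 * Y - Y ^ 3) / 3 + 4 * (X * Y) - 5 * Y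
      = -(3 * X' ^ 2 * Y' - Y' ^ 3) / 3 + 4 * (X' * Y') - 5 * Y') : X = X' ∧ Y = Y' := by
  set a : ℝ := 5 - 2 * (X + X') + (X ^ 2 - Y ^ 2 + (X * X' - Y * Y') + (X' ^ 2 - Y' ^ 2)) / 3
    with ha
  set b : ℝ := -2 * (Y + Y') + (2 * X * Y + (X * Y' + X' * Y) + 2 * X' * Y') / 3 with hb
  have ha2 : 2 ≤ a := by
    have : a = 5 - 2 * (X + X') + (X ^ 2 - Y ^ 2 + (X * X' - Y * Y') + (X' ^ 2 - Y' ^ 2)) / 3 := ha
    nlinarith [sq_nonneg (X + X' - 2), sq_nonneg (X - X'), sq_nonneg (Y - Y')]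
  have f2 : (X - X') * a - (Y - Y') * b = 0 := by
    rw [ha, hb]; linear_combination -e2
  have f1 : (X - X') * b + (Y - Y') * a = 0 := by
    rw [ha, hb]; linear_combination -e1
  have hpos : 0 < a ^ 2 + b ^ 2 := by positivity
  constructor
  · have : (X - X') * (a ^ 2 + b ^ 2) = 0 := by linear_combination a * f2 + b * f1
    rcases mul_eq_zero.mp this with h0 | h0
    · linarith
    · linarith
  · have : (Y - Y') * (a ^ 2 + b ^ 2) = 0 := by linear_combination a * f1 - b * f2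
    rcases mul_eq_zero.mp this with h0 | h0
    · linarith
    · linarith

lemma M_inj {φ ψ : ℝ} (h1 : M1 φ = M1 ψ) (h2 : M2 φ = M2 ψ) : ∃ j : ℤ, ψ = φ + j * π := by
  rw [M1_eq, M1_eq] at h1
  rw [M2_eq, M2_eq] at h2
  have hk := kk_ne
  have h1' := mul_left_cancel₀ hk h1
  have h2' := mul_left_cancel₀ hk h2
  obtain ⟨hX, hY⟩ := planar_inj (cos_sq_add_sin_sq (2 * φ)) (cos_sq_add_sin_sq (2 * ψ)) h2' h1'
  have hc : cos (2 * ψ - 2 * φ) = 1 := by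
    rw [cos_sub, hX, hY]
    nlinarith [cos_sq_add_sin_sq (2 * ψ)]
  obtain ⟨n, hn⟩ := (Real.cos_eq_one_iff _).mp hc
  exact ⟨n, by linarith⟩

end MoebAlg
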