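import Mathlib

/-!
# Definitions: isometric embeddings of the complete flat Moebius strip, algebraic sets, order
-/

open scoped ContDiff

noncomputable section

namespace MoebAlg

/-- Four-dimensional Euclidean space. -/
abbrev E4 : Type := EuclideanSpace ℝ (Fin 4)

/-- `F` is the lift to the universal cover `ℝ²` (coordinates `(t, v)`) of a smooth isometric
embedding into `E4` of the complete standard Moebius strip `M_a`, which is the quotient of the
flat plane by the group generated by `(t, v) ↦ (-t, v + a)`: the map `F` is smooth, preserves the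
flat metric, is invariant under the deck group, and is injective modulo the deck group. -/
structure IsIsometricEmbedding (a : ℝ) (F : ℝ × ℝ → E4) : Prop where
  smooth : ContDiff ℝ ∞ F
  isometric : ∀ p k : ℝ × ℝ, ‖fderiv ℝ F p k‖ ^ 2 = k.1 ^ 2 + k.2 ^ 2
  invariant : ∀ t v : ℝ, F (-t, v + a) = F (t, v)
  injective : ∀ p q : ℝ × ℝ, F p = F q →
    ∃ j : ℤ, q = ((-1 : ℝ) ^ j * p.1, p.2 + j * a)

/-- Restriction of polynomials in four variables to a subset of `E4`. -/
def resHom (S : Set E4) : MvPolynomial (Fin 4) ℝ →ₐ[ℝ] (S → ℝ) :=
  MvPolynomial.aeval (fun i => fun x : S => (x : E4) i)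

/-- The ideal of polynomials vanishing on a subset of `E4`. -/
def vanish (S : Set E4) : Ideal (MvPolynomial (Fin 4) ℝ) := RingHom.ker (resHom S)

/-- The common zero set in `E4` of a family of real polynomials. -/
def zeros (P : Set (MvPolynomial (Fin 4) ℝ)) : Set E4 :=
  {x | ∀ p ∈ P, MvPolynomial.eval (fun i => x i) p = 0}

/-- The affine Hilbert function of (the Zariski closure of) `S`: the dimension of the space of
restrictions to `S` of the real polynomials of degree at most `n`. -/
def hilb (S : Set E4) (n : ℕ) : ℕ :=
  Module.finrank ℝ ((MvPolynomial.restrictTotalDegree (Fin 4) ℝ n).map (resHom S).toLinearMap)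

lemma resHom_apply (S : Set E4) (p : MvPolynomial (Fin 4) ℝ) (x : S) :
    resHom S p x = MvPolynomial.eval (fun i => (x : E4) i) p := by
  unfold resHom
  induction p using MvPolynomial.induction_on with
  | C a => simp
  | add p q hp hq => simp [hp, hq]
  | mul_X p i hp => simp [hp]

lemma mem_vanish {S : Set E4} {p : MvPolynomial (Fin 4) ℝ} :
    p ∈ vanish S ↔ ∀ x ∈ S, MvPolynomial.eval (fun i => x i) p = 0 := by
  unfold vanish
  rw [RingHom.mem_ker]
  constructor
  · intro h x hx
    have := congrFun h ⟨x, hx⟩
    rw [← resHom_apply S p ⟨x, hx⟩]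
    exact this
  · intro h
    funext x
    have h2 := resHom_apply S p x
    rw [h x x.2] at h2
    exact h2

/-- A subset of `E4` is contained in the zero set of finitely many polynomials with the same
vanishing ideal (its Zariski closure). -/
lemma exists_closure (S : Set E4) : ∃ P : Finset (MvPolynomial (Fin 4) ℝ),
    S ⊆ zeros (P : Set (MvPolynomial (Fin 4) ℝ)) ∧
      vanish (zeros (P : Set (MvPolynomial (Fin 4) ℝ))) = vanish S := by
  obtain ⟨P, hP⟩ := (isNoetherianRing_iff_ideal_fg _).mp
    (inferInstance : IsNoetherianRing (MvPolynomial (Fin 4) ℝ)) (vanish S)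
  have hsub : S ⊆ zeros (P : Set (MvPolynomial (Fin 4) ℝ)) := by
    intro x hx p hp
    have : p ∈ vanish S := by rw [← hP]; exact Ideal.subset_span hp
    exact mem_vanish.mp this x hx
  refine ⟨P, hsub, le_antisymm ?_ ?_⟩
  · intro p hp
    rw [mem_vanish] at hp ⊢
    exact fun x hx => hp x (hsub hx)
  · intro p hp
    rw [mem_vanish]
    intro x hx
    have hle : vanish S ≤ RingHom.ker (MvPolynomial.eval (fun i => x i)) := by
      rw [← hP, Ideal.span_le]
      intro q hq
      exact hx q hq
    exact hle hp

end MoebAlg
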