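import Mathlib

/-!
# Two general lemmas: a bijectivity criterion and smooth global inverses in the plane
-/

open Real Filter Topology
open scoped ContDiff

noncomputable section

namespace MoebAlg

/-- A real function with derivative bounded below by a positive constant is bijective. -/
lemma bijective_of_deriv_ge {f f' : ℝ → ℝ} (hf : ∀ x, HasDerivAt f (f' x) x) {c : ℝ}
    (hc : 0 < c) (h : ∀ x, c ≤ f' x) : Function.Bijective f := by
  have hcont : Continuous f := continuous_iff_continuousAt.mpr fun x => (hf x).continuousAt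
  constructor
  · exact (strictMono_of_deriv_pos
      (fun x => by rw [(hf x).deriv]; linarith [h x])).injective
  · have hd : ∀ x, HasDerivAt (fun x => f x - c * x) (f' x - c) x := fun x => by
      exact ((hf x).sub ((hasDerivAt_id x).const_mul c)).congr_deriv (by simp)
    have hmono : Monotone (fun x => f x - c * x) := by
      apply monotone_of_deriv_nonneg (fun x => (hd x).differentiableAt)
      intro x
      rw [(hd x).deriv]
      linarith [h x]
    have h1 : ∀ x, 0 ≤ x → f 0 + c * x ≤ f x := fun x hx => by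
      have := hmono hx
      simp only [mul_zero, sub_zero] at this
      linarith
    have h2 : ∀ x, x ≤ 0 → f x ≤ f 0 + c * x := fun x hx => by
      have := hmono hx
      simp only [mul_zero, sub_zero] at this
      linarith
    have t1 : Tendsto f atTop atTop := by
      have : Tendsto (fun x : ℝ => f 0 + c * x) atTop atTop :=
        tendsto_atTop_add_const_left _ _ (tendsto_id.const_mul_atTop hc)
      refine tendsto_atTop_mono' _ ?_ this
      filter_upwards [eventually_ge_atTop 0] with x hx using h1 x hx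
    have t2 : Tendsto f atBot atBot := by
      have : Tendsto (fun x : ℝ => f 0 + c * x) atBot atBot :=
        tendsto_atBot_add_const_left _ _ (tendsto_id.const_mul_atBot hc)
      refine tendsto_atBot_mono' _ ?_ this
      filter_upwards [eventually_le_atBot 0] with x hx using h2 x hx
    exact hcont.surjective t1 t2

/-- the continuous linear equivalence given by an injective endomorphism of the plane -/
def planeEquiv (L : (ℝ × ℝ) →L[ℝ] (ℝ × ℝ)) (hL : ∀ k, L k = 0 → k = 0) :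
    (ℝ × ℝ) ≃L[ℝ] (ℝ × ℝ) :=
  (LinearEquiv.ofInjectiveEndo (L : (ℝ × ℝ) →ₗ[ℝ] (ℝ × ℝ))
    ((injective_iff_map_eq_zero _).mpr hL)).toContinuousLinearEquiv

lemma planeEquiv_coe (L : (ℝ × ℝ) →L[ℝ] (ℝ × ℝ)) (hL : ∀ k, L k = 0 → k = 0) :
    ((planeEquiv L hL : (ℝ × ℝ) ≃L[ℝ] (ℝ × ℝ)) : (ℝ × ℝ) →L[ℝ] (ℝ × ℝ)) = L := by
  ext <;> rfl

/-- A smooth bijection of the plane with injective derivative has a smooth inverse. -/
lemma exists_smooth_inverse {Ψ : ℝ × ℝ → ℝ × ℝ} (hs : ContDiff ℝ ∞ Ψ)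
    (hb : Function.Bijective Ψ) (hi : ∀ x k, fderiv ℝ Ψ x k = 0 → k = 0) :
    ∃ Φ : ℝ × ℝ → ℝ × ℝ, ContDiff ℝ ∞ Φ ∧ (∀ x, Φ (Ψ x) = x) ∧ (∀ y, Ψ (Φ y) = y) := by
  set f' : ℝ × ℝ → (ℝ × ℝ) ≃L[ℝ] (ℝ × ℝ) := fun x => planeEquiv (fderiv ℝ Ψ x) (hi x) with hf'
  have hstrict : ∀ x, HasStrictFDerivAt Ψ (f' x : (ℝ × ℝ) →L[ℝ] (ℝ × ℝ)) x := by
    intro x
    rw [hf']
    simp only [planeEquiv_coe]
    exact hs.contDiffAt.hasStrictFDerivAt (by simp)
  have hopen : IsOpenMap Ψ := isOpenMap_of_hasStrictFDerivAt_equiv hstrict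
  let H : (ℝ × ℝ) ≃ₜ (ℝ × ℝ) :=
    (Equiv.ofBijective Ψ hb).toHomeomorphOfContinuousOpen hs.continuous hopen
  have hH : ∀ x, H x = Ψ x := fun x => rfl
  have hsm : ContDiff ℝ ∞ (H.symm : ℝ × ℝ → ℝ × ℝ) :=
    H.contDiff_symm (f₀' := f') (fun a => (hstrict a).hasFDerivAt) hs
  refine ⟨H.symm, hsm, fun x => ?_, fun y => ?_⟩
  · rw [← hH x]; exact H.symm_apply_apply x
  · rw [← hH (H.symm y)]; exact H.apply_symm_apply y

/-- local injectivity from an injective derivative (plane to plane) -/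
lemma exists_injOn_nhds {f : ℝ × ℝ → ℝ × ℝ} {x : ℝ × ℝ} (hs : ContDiffAt ℝ ∞ f x)
    (hi : ∀ k, fderiv ℝ f x k = 0 → k = 0) : ∃ U ∈ 𝓝 x, Set.InjOn f U := by
  have hstrict : HasStrictFDerivAt f
      ((planeEquiv (fderiv ℝ f x) hi : (ℝ × ℝ) ≃L[ℝ] (ℝ × ℝ)) : (ℝ × ℝ) →L[ℝ] (ℝ × ℝ)) x := by
    rw [planeEquiv_coe]
    exact hs.hasStrictFDerivAt (by simp)
  refine ⟨(hstrict.toOpenPartialHomeomorph f).source, ?_, ?_⟩
  · exact (hstrict.toOpenPartialHomeomorph f).open_source.mem_nhds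
      hstrict.mem_toOpenPartialHomeomorph_source
  · exact (hstrict.toOpenPartialHomeomorph f).injOn

end MoebAlg
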