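import Mathlib
import Pool.Agent.Lib.MP_d21f85_gt.General

/-!
# Wrapping a closed developable ribbon to a complete flat Moebius strip
-/

open Real Filter Topology
open scoped ContDiff InnerProductSpace

noncomputable section

namespace MoebAlg

/-- A developable ribbon `φ, τ ↦ M φ + τ D φ` around a closed curve, with a half twist, in a
real inner product space, together with a unit vector orthogonal to it. -/
structure Ribbon (V : Type*) [NormedAddCommGroup V] [InnerProductSpace ℝ V] where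
  /-- centre line -/
  M : ℝ → V
  /-- its derivative -/
  M' : ℝ → V
  /-- ruling -/
  D : ℝ → V
  /-- the extra direction -/
  e : V
  /-- arc length -/
  S : ℝ → ℝ
  /-- tangential part of the ruling -/
  w : ℝ → ℝ
  /-- `D' = μ M'` -/
  μ : ℝ → ℝ
  /-- speed -/
  ρ : ℝ → ℝ
  /-- lower bound for the speed -/
  r0 : ℝ
  /-- upper bound for `|μ|` -/
  B : ℝ
  /-- length -/
  a0 : ℝ
  r0_pos : 0 < r0
  ρ_ge : ∀ φ, r0 ≤ ρ φ
  B_pos : 0 < B
  μ_le : ∀ φ, |μ φ| ≤ B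
  hM : ∀ φ, HasDerivAt M (M' φ) φ
  hD : ∀ φ, HasDerivAt D (μ φ • M' φ) φ
  hS : ∀ φ, HasDerivAt S (ρ φ) φ
  hw : ∀ φ, HasDerivAt w (μ φ * ρ φ) φ
  sM : ContDiff ℝ ∞ M
  sD : ContDiff ℝ ∞ D
  sS : ContDiff ℝ ∞ S
  sw : ContDiff ℝ ∞ w
  i1 : ∀ φ, ⟪M' φ, M' φ⟫_ℝ = ρ φ ^ 2
  i2 : ∀ φ, ⟪D φ, M' φ⟫_ℝ = w φ * ρ φ
  i3 : ∀ φ, ⟪D φ, D φ⟫_ℝ = 1 + w φ ^ 2
  eM : ∀ φ, ⟪e, M φ⟫_ℝ = 0
  eM' : ∀ φ, ⟪e, M' φ⟫_ℝ = 0
  eD : ∀ φ, ⟪e, D φ⟫_ℝ = 0
  ee : ⟪e, e⟫_ℝ = 1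
  pM : ∀ φ, M (φ + π) = M φ
  pD : ∀ φ, D (φ + π) = -D φ
  pw : ∀ φ, w (φ + π) = -w φ
  pS : ∀ φ, S (φ + π) = S φ + a0
  inj : ∀ φ ψ, M φ = M ψ → ∃ j : ℤ, ψ = φ + j * π

/-- `σ u = u / √(1+u²)` -/
def sg (u : ℝ) : ℝ := u / √(1 + u ^ 2)

/-- derivative of `σ` -/
def sg' (u : ℝ) : ℝ := 1 / √(1 + u ^ 2) ^ 3

lemma one_add_sq_pos (u : ℝ) : 0 < 1 + u ^ 2 := by positivity

lemma sqrt_one_add_pos (u : ℝ) : 0 < √(1 + u ^ 2) := Real.sqrt_pos.mpr (one_add_sq_pos u)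

lemma hasDerivAt_sg (u : ℝ) : HasDerivAt sg (sg' u) u := by
  have h0 : HasDerivAt (fun x : ℝ => 1 + x ^ 2) (2 * u) u := by
    have := (hasDerivAt_pow 2 u).const_add 1
    exact this.congr_deriv (by simp)
  have h1 := h0.sqrt (one_add_sq_pos u).ne'
  have hp := sqrt_one_add_pos u
  have hs : √(1 + u ^ 2) ^ 2 = 1 + u ^ 2 := Real.sq_sqrt (one_add_sq_pos u).le
  have h2 := (hasDerivAt_id u).div h1 hp.ne'
  refine h2.congr_deriv ?_
  unfold sg'
  simp only [id]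
  field_simp
  rw [hs]; ring

lemma contDiff_sqrt_one_add {n : WithTop ℕ∞} : ContDiff ℝ n (fun u : ℝ => √(1 + u ^ 2)) :=
  (contDiff_const.add (contDiff_id.pow 2)).sqrt (fun u => (one_add_sq_pos u).ne')

lemma contDiff_sg {n : WithTop ℕ∞} : ContDiff ℝ n sg :=
  contDiff_id.div contDiff_sqrt_one_add (fun u => (sqrt_one_add_pos u).ne')

lemma contDiff_sg' : ContDiff ℝ ∞ sg' :=
  contDiff_const.div (contDiff_sqrt_one_add.pow 3) (fun u => pow_ne_zero 3 (sqrt_one_add_pos u).ne')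

lemma sg_neg (u : ℝ) : sg (-u) = -sg u := by
  unfold sg; rw [neg_sq, neg_div]

lemma sg'_neg (u : ℝ) : sg' (-u) = sg' u := by
  unfold sg'; rw [neg_sq]

lemma sg'_pos (u : ℝ) : 0 < sg' u := by
  unfold sg'; have := sqrt_one_add_pos u; positivity

lemma sg_strictMono : StrictMono sg :=
  strictMono_of_deriv_pos (fun x => by rw [(hasDerivAt_sg x).deriv]; exact sg'_pos x)

lemma sg_inj {u v : ℝ} (h : sg u = sg v) : u = v := sg_strictMono.injective h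

lemma abs_sg_lt (u : ℝ) : |sg u| < 1 := by
  unfold sg
  rw [abs_div, abs_of_pos (sqrt_one_add_pos u), div_lt_one (sqrt_one_add_pos u)]
  rw [← Real.sqrt_sq_eq_abs]
  exact Real.sqrt_lt_sqrt (sq_nonneg u) (by linarith)

/-- the speed of the plane curve `(t₀ σ(u), u²)` -/
def gg (t u : ℝ) : ℝ := √((t * sg' u) ^ 2 + 4 * u ^ 2)

/-- its arc length -/
def GG (t u : ℝ) : ℝ := ∫ x in (0 : ℝ)..u, gg t x

lemma gg_arg_pos {t : ℝ} (ht : 0 < t) (u : ℝ) : 0 < (t * sg' u) ^ 2 + 4 * u ^ 2 := by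
  have := sg'_pos u
  positivity

lemma gg_sq {t : ℝ} (ht : 0 < t) (u : ℝ) : gg t u ^ 2 = (t * sg' u) ^ 2 + 4 * u ^ 2 :=
  Real.sq_sqrt (gg_arg_pos ht u).le

lemma contDiff_gg {t : ℝ} (ht : 0 < t) : ContDiff ℝ ∞ (gg t) := by
  unfold gg
  exact (((contDiff_const.mul contDiff_sg').pow 2).add
    (contDiff_const.mul (contDiff_id.pow 2))).sqrt (fun u => (gg_arg_pos ht u).ne')

lemma gg_neg (t u : ℝ) : gg t (-u) = gg t u := by
  unfold gg; rw [sg'_neg, neg_sq]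

lemma gg_ge {t : ℝ} (ht : 0 < t) (ht1 : t ≤ 1) (u : ℝ) : t / 3 ≤ gg t u := by
  have h1 : (t / 3) ^ 2 ≤ (t * sg' u) ^ 2 + 4 * u ^ 2 := by
    rcases le_total 1 (u ^ 2) with hu | hu
    · have : 0 ≤ (t * sg' u) ^ 2 := sq_nonneg _
      nlinarith
    · have hs : √(1 + u ^ 2) ^ 2 = 1 + u ^ 2 := Real.sq_sqrt (one_add_sq_pos u).le
      have hp := sqrt_one_add_pos u
      have hs' : sg' u ^ 2 = 1 / (1 + u ^ 2) ^ 3 := by
        unfold sg'
        rw [div_pow, one_pow, ← pow_mul, show 3 * 2 = 2 * 3 from rfl, pow_mul, hs]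
      have h8 : 1 / 9 ≤ sg' u ^ 2 := by
        rw [hs']
        apply one_div_le_one_div_of_le (by positivity)
        calc (1 + u ^ 2) ^ 3 ≤ (1 + 1) ^ 3 := by gcongr
          _ ≤ 9 := by norm_num
      have : t ^ 2 * (1 / 9) ≤ t ^ 2 * sg' u ^ 2 := by gcongr
      nlinarith [sq_nonneg u]
  exact Real.le_sqrt_of_sq_le h1

lemma hasDerivAt_GG {t : ℝ} (ht : 0 < t) (u : ℝ) : HasDerivAt (GG t) (gg t u) u := by
  have hc : Continuous (gg t) := (contDiff_gg ht).continuous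
  exact (hc.integral_hasStrictDerivAt 0 u).hasDerivAt

lemma contDiff_GG {t : ℝ} (ht : 0 < t) : ContDiff ℝ ∞ (GG t) := by
  rw [contDiff_infty_iff_deriv]
  refine ⟨fun u => (hasDerivAt_GG ht u).differentiableAt, ?_⟩
  have : deriv (GG t) = gg t := funext fun u => (hasDerivAt_GG ht u).deriv
  rw [this]
  exact contDiff_gg ht

lemma GG_neg (t u : ℝ) : GG t (-u) = -GG t u := by
  unfold GG
  have h := intervalIntegral.integral_comp_neg (a := 0) (b := u) (fun x => gg t x)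
  simp only [gg_neg, neg_zero] at h
  rw [h, intervalIntegral.integral_symm]

lemma GG_bijective {t : ℝ} (ht : 0 < t) (ht1 : t ≤ 1) : Function.Bijective (GG t) :=
  bijective_of_deriv_ge (hasDerivAt_GG ht) (by positivity : 0 < t / 3) (gg_ge ht ht1)

namespace Ribbon

variable {V : Type*} [NormedAddCommGroup V] [InnerProductSpace ℝ V] (r : Ribbon V)

lemma M_shift (φ : ℝ) (j : ℤ) : r.M (φ + j * π) = r.M φ := by
  induction j using Int.induction_on with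
  | zero => simp
  | succ n ih =>
    rw [← ih, ← r.pM (φ + ((n : ℤ) : ℝ) * π)]
    congr 1
    push_cast
    ring
  | pred n ih =>
    rw [← ih, ← r.pM (φ + ((-(n : ℤ) - 1 : ℤ) : ℝ) * π)]
    congr 1
    push_cast
    ring

lemma D_shift (φ : ℝ) (j : ℤ) : r.D (φ + j * π) = (-1 : ℝ) ^ j • r.D φ := by
  induction j using Int.induction_on with
  | zero => simp
  | succ n ih =>
    have h := r.pD (φ + ((n : ℤ) : ℝ) * π)
    rw [ih] at h
    rw [zpow_add_one₀ (by norm_num)]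
    have e : φ + (((n : ℤ) + 1 : ℤ) : ℝ) * π = φ + ((n : ℤ) : ℝ) * π + π := by
      push_cast; ring
    rw [e, h]
    simp
  | pred n ih =>
    have h := r.pD (φ + ((-(n : ℤ) - 1 : ℤ) : ℝ) * π)
    have e : φ + ((-(n : ℤ) - 1 : ℤ) : ℝ) * π + π = φ + ((-(n : ℤ) : ℤ) : ℝ) * π := by
      push_cast; ring
    rw [e, ih] at h
    rw [zpow_sub_one₀ (by norm_num)]
    have h2 : r.D (φ + ((-(n : ℤ) - 1 : ℤ) : ℝ) * π) = -((-1 : ℝ) ^ (-(n : ℤ)) • r.D φ) := by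
      rw [h, neg_neg]
    rw [h2]
    norm_num

lemma w_shift (φ : ℝ) (j : ℤ) : r.w (φ + j * π) = (-1 : ℝ) ^ j * r.w φ := by
  induction j using Int.induction_on with
  | zero => simp
  | succ n ih =>
    have h := r.pw (φ + ((n : ℤ) : ℝ) * π)
    rw [ih] at h
    rw [zpow_add_one₀ (by norm_num)]
    have e : φ + (((n : ℤ) + 1 : ℤ) : ℝ) * π = φ + ((n : ℤ) : ℝ) * π + π := by
      push_cast; ring
    rw [e, h]
    simp
  | pred n ih =>
    have h := r.pw (φ + ((-(n : ℤ) - 1 : ℤ) : ℝ) * π)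
    have e : φ + ((-(n : ℤ) - 1 : ℤ) : ℝ) * π + π = φ + ((-(n : ℤ) : ℤ) : ℝ) * π := by
      push_cast; ring
    rw [e, ih] at h
    rw [zpow_sub_one₀ (by norm_num)]
    have h2 : r.w (φ + ((-(n : ℤ) - 1 : ℤ) : ℝ) * π) = -((-1 : ℝ) ^ (-(n : ℤ)) * r.w φ) := by
      rw [h, neg_neg]
    rw [h2]
    norm_num

lemma S_shift (φ : ℝ) (j : ℤ) : r.S (φ + j * π) = r.S φ + j * r.a0 := by
  induction j using Int.induction_on with
  | zero => simp
  | succ n ih =>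
    have h := r.pS (φ + ((n : ℤ) : ℝ) * π)
    rw [ih] at h
    have e : φ + (((n : ℤ) + 1 : ℤ) : ℝ) * π = φ + ((n : ℤ) : ℝ) * π + π := by
      push_cast; ring
    rw [e, h]
    push_cast; ring
  | pred n ih =>
    have h := r.pS (φ + ((-(n : ℤ) - 1 : ℤ) : ℝ) * π)
    have e : φ + ((-(n : ℤ) - 1 : ℤ) : ℝ) * π + π = φ + ((-(n : ℤ) : ℤ) : ℝ) * π := by
      push_cast; ring
    rw [e, ih] at h
    push_cast at h ⊢
    linarith

/-- the ribbon as a map of `(τ, φ)` -/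
def E (p : ℝ × ℝ) : V := r.M p.2 + p.1 • r.D p.2

lemma neg_one_zpow_sq (j : ℤ) : (-1 : ℝ) ^ j * (-1 : ℝ) ^ j = 1 := by
  rw [← mul_zpow]; simp

lemma E_shift (τ φ : ℝ) (j : ℤ) : r.E ((-1 : ℝ) ^ j * τ, φ + j * π) = r.E (τ, φ) := by
  unfold E
  simp only [M_shift, D_shift, smul_smul]
  congr 2
  have := neg_one_zpow_sq j
  linear_combination τ * this

lemma contDiff_E : ContDiff ℝ ∞ r.E := by
  unfold E
  exact (r.sM.comp contDiff_snd).add (contDiff_fst.smul (r.sD.comp contDiff_snd))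

lemma hasFDerivAt_E (p : ℝ × ℝ) :
    HasFDerivAt r.E ((ContinuousLinearMap.snd ℝ ℝ ℝ).smulRight ((1 + p.1 * r.μ p.2) • r.M' p.2)
      + (ContinuousLinearMap.fst ℝ ℝ ℝ).smulRight (r.D p.2)) p := by
  have h1 : HasFDerivAt (fun q : ℝ × ℝ => r.M q.2) _ p :=
    (r.hM p.2).hasFDerivAt.comp p (hasFDerivAt_snd (𝕜 := ℝ) (p := p))
  have h2 : HasFDerivAt (fun q : ℝ × ℝ => r.D q.2) _ p :=
    (r.hD p.2).hasFDerivAt.comp p (hasFDerivAt_snd (𝕜 := ℝ) (p := p))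
  have h3 := (hasFDerivAt_fst (𝕜 := ℝ) (p := p)).smul h2
  refine (h1.add h3).congr_fderiv ?_
  ext
  · simp
  · simp [add_smul, smul_smul]

/-- local injectivity of the ribbon near its centre line -/
lemma exists_injOn (φ : ℝ) : ∃ U ∈ 𝓝 ((0 : ℝ), φ), Set.InjOn r.E U := by
  let P : V →L[ℝ] ℝ × ℝ := (innerSL ℝ (r.D φ)).prod (innerSL ℝ (r.M' φ))
  have hE := r.hasFDerivAt_E (0, φ)
  have hPE : HasFDerivAt (fun x => P (r.E x)) _ ((0 : ℝ), φ) :=
    P.hasFDerivAt.comp ((0 : ℝ), φ) hE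
  have hs : ContDiffAt ℝ ∞ (fun x => P (r.E x)) ((0 : ℝ), φ) :=
    (P.contDiff.comp r.contDiff_E).contDiffAt
  obtain ⟨U, hU, hinj⟩ := exists_injOn_nhds hs (by
    intro k hk
    rw [hPE.fderiv] at hk
    have hk1 := congrArg Prod.fst hk
    have hk2 := congrArg Prod.snd hk
    simp only [ContinuousLinearMap.comp_apply, ContinuousLinearMap.prod_apply, P,
      _root_.add_apply, ContinuousLinearMap.smulRight_apply,
      ContinuousLinearMap.coe_fst', ContinuousLinearMap.coe_snd', innerSL_apply_apply,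
      inner_add_right, inner_smul_right, Prod.fst_zero, Prod.snd_zero, zero_mul, add_zero,
      one_smul] at hk1 hk2
    have i2' : ⟪r.M' φ, r.D φ⟫_ℝ = r.w φ * r.ρ φ := by rw [real_inner_comm]; exact r.i2 φ
    rw [r.i2, r.i3] at hk1
    rw [r.i1, i2'] at hk2
    have hρ : 0 < r.ρ φ := lt_of_lt_of_le r.r0_pos (r.ρ_ge φ)
    have e2 : k.2 * r.ρ φ + k.1 * r.w φ = 0 := by
      have : r.ρ φ * (k.2 * r.ρ φ + k.1 * r.w φ) = 0 := by linear_combination hk2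
      rcases mul_eq_zero.mp this with h | h
      · exact absurd h hρ.ne'
      · exact h
    have e1 : k.1 = 0 := by linear_combination hk1 - r.w φ * e2
    have e3 : k.2 = 0 := by
      rw [e1, zero_mul, add_zero] at e2
      rcases mul_eq_zero.mp e2 with h | h
      · exact h
      · exact absurd h hρ.ne'
    exact Prod.ext e1 e3)
  exact ⟨U, hU, fun x hx y hy hxy => hinj hx hy (by simp only [hxy])⟩

lemma exists_shift (φ : ℝ) : ∃ j : ℤ, φ - j * π ∈ Set.Icc 0 π := by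
  refine ⟨⌊φ / π⌋, ?_, ?_⟩
  · have h := Int.floor_le (φ / π)
    rw [le_div_iff₀ pi_pos] at h
    linarith
  · have h := Int.lt_floor_add_one (φ / π)
    rw [div_lt_iff₀ pi_pos] at h
    linarith

/-- the ribbon is embedded (modulo the half-twist identification) near its centre line -/
lemma exists_tube : ∃ t1 : ℝ, 0 < t1 ∧ ∀ τ1 τ2 φ1 φ2 : ℝ, |τ1| < t1 → |τ2| < t1 →
    r.E (τ1, φ1) = r.E (τ2, φ2) →
      ∃ j : ℤ, φ2 = φ1 + j * π ∧ τ2 = (-1 : ℝ) ^ j * τ1 := by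
  have hE : Continuous r.E := r.contDiff_E.continuous
  have hK : IsCompact (Set.Icc (0 : ℝ) π ×ˢ Set.Icc (0 : ℝ) π) := isCompact_Icc.prod isCompact_Icc
  have key := hK.eventually_forall_of_forall_eventually (x₀ := ((0 : ℝ), (0 : ℝ)))
    (P := fun τ φ => r.E (τ.1, φ.1) = r.E (τ.2, φ.2) →
      ∃ j : ℤ, φ.2 = φ.1 + j * π ∧ τ.2 = (-1 : ℝ) ^ j * τ.1) (by
    rintro ⟨a, b⟩ -
    by_cases hab : r.M a = r.M b
    · obtain ⟨j, hj⟩ := r.inj a b hab
      obtain ⟨U, hU, hinj⟩ := r.exists_injOn a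
      have c1 : Continuous (fun z : (ℝ × ℝ) × (ℝ × ℝ) => (z.1.1, z.2.1)) := by fun_prop
      have c2 : Continuous (fun z : (ℝ × ℝ) × (ℝ × ℝ) =>
        ((-1 : ℝ) ^ j * z.1.2, z.2.2 - j * π)) := by fun_prop
      have t1 : ∀ᶠ z : (ℝ × ℝ) × (ℝ × ℝ) in 𝓝 (((0 : ℝ), (0 : ℝ)), (a, b)),
          (z.1.1, z.2.1) ∈ U := c1.continuousAt.eventually (by simpa using hU)
      have t2 : ∀ᶠ z : (ℝ × ℝ) × (ℝ × ℝ) in 𝓝 (((0 : ℝ), (0 : ℝ)), (a, b)),
          ((-1 : ℝ) ^ j * z.1.2, z.2.2 - j * π) ∈ U := by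
        refine c2.continuousAt.eventually ?_
        have : ((-1 : ℝ) ^ j * 0, b - j * π) = ((0 : ℝ), a) := by
          rw [hj]; simp
        simp only [this]
        exact hU
      filter_upwards [t1, t2] with z hz1 hz2 heq
      refine ⟨j, ?_⟩
      have hsh := r.E_shift ((-1 : ℝ) ^ j * z.1.2) (z.2.2 - j * π) j
      rw [← mul_assoc, neg_one_zpow_sq, one_mul, sub_add_cancel] at hsh
      have h := hinj hz1 hz2 (heq.trans hsh)
      have ha := congrArg Prod.fst h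
      have hb := congrArg Prod.snd h
      simp only at ha hb
      refine ⟨by linarith, ?_⟩
      rw [ha, ← mul_assoc, neg_one_zpow_sq, one_mul]
    · have c1 : Continuous (fun z : (ℝ × ℝ) × (ℝ × ℝ) => r.E (z.1.1, z.2.1)) :=
        hE.comp (by fun_prop)
      have c2 : Continuous (fun z : (ℝ × ℝ) × (ℝ × ℝ) => r.E (z.1.2, z.2.2)) :=
        hE.comp (by fun_prop)
      have hne : ∀ᶠ z : (ℝ × ℝ) × (ℝ × ℝ) in 𝓝 (((0 : ℝ), (0 : ℝ)), (a, b)),
          r.E (z.1.1, z.2.1) ≠ r.E (z.1.2, z.2.2) :=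
        (isOpen_ne_fun c1 c2).mem_nhds (by simpa [E] using hab)
      filter_upwards [hne] with z hz heq
      exact absurd heq hz)
  obtain ⟨ε, hε, hball⟩ := Metric.eventually_nhds_iff.mp key
  refine ⟨ε, hε, fun τ1 τ2 φ1 φ2 h1 h2 heq => ?_⟩
  obtain ⟨j1, hj1⟩ := exists_shift φ1
  obtain ⟨j2, hj2⟩ := exists_shift φ2
  have ha : |(-1 : ℝ) ^ j1 * τ1| < ε := by
    rw [abs_mul, abs_zpow, abs_neg, abs_one, one_zpow, one_mul]; exact h1
  have hb : |(-1 : ℝ) ^ j2 * τ2| < ε := by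
    rw [abs_mul, abs_zpow, abs_neg, abs_one, one_zpow, one_mul]; exact h2
  have hd : dist ((-1 : ℝ) ^ j1 * τ1, (-1 : ℝ) ^ j2 * τ2) ((0 : ℝ), (0 : ℝ)) < ε := by
    rw [Prod.dist_eq]
    simp only [Real.dist_eq, sub_zero]
    exact max_lt ha hb
  have s1 := r.E_shift ((-1 : ℝ) ^ j1 * τ1) (φ1 - j1 * π) j1
  have s2 := r.E_shift ((-1 : ℝ) ^ j2 * τ2) (φ2 - j2 * π) j2
  rw [← mul_assoc, neg_one_zpow_sq, one_mul, sub_add_cancel] at s1 s2
  obtain ⟨j, hj, hτ⟩ := hball hd (φ1 - j1 * π, φ2 - j2 * π) ⟨hj1, hj2⟩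
    (by simp only; rw [← s1, ← s2]; exact heq)
  simp only at hj hτ
  refine ⟨j + j2 - j1, ?_, ?_⟩
  · push_cast
    linarith
  · have e2 : τ2 = (-1 : ℝ) ^ j2 * ((-1 : ℝ) ^ j2 * τ2) := by
      rw [← mul_assoc, neg_one_zpow_sq, one_mul]
    have hinv : ((-1 : ℝ) ^ j1)⁻¹ = (-1 : ℝ) ^ j1 :=
      inv_eq_of_mul_eq_one_left (neg_one_zpow_sq j1)
    rw [e2, hτ, zpow_sub₀ (by norm_num), zpow_add₀ (by norm_num), div_eq_mul_inv, hinv]
    ring

/-- the wrapped surface in the parameters `(u, φ)` -/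
def Fh (t : ℝ) (p : ℝ × ℝ) : V := r.M p.2 + (t * sg p.1) • r.D p.2 + (p.1 ^ 2) • r.e

/-- the flat coordinates in terms of the parameters `(u, φ)` -/
def Psi (t : ℝ) (p : ℝ × ℝ) : ℝ × ℝ := (GG t p.1, r.S p.2 + t * sg p.1 * r.w p.2)

lemma contDiff_Fh (t : ℝ) : ContDiff ℝ ∞ (r.Fh t) := by
  unfold Fh
  exact ((r.sM.comp contDiff_snd).add
    ((contDiff_const.mul (contDiff_sg.comp contDiff_fst)).smul (r.sD.comp contDiff_snd))).add
    ((contDiff_fst.pow 2).smul contDiff_const)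

lemma contDiff_Psi {t : ℝ} (ht : 0 < t) : ContDiff ℝ ∞ (r.Psi t) := by
  unfold Psi
  exact ((contDiff_GG ht).comp contDiff_fst).prodMk ((r.sS.comp contDiff_snd).add
    ((contDiff_const.mul (contDiff_sg.comp contDiff_fst)).mul (r.sw.comp contDiff_snd)))

lemma hasFDerivAt_Fh (t : ℝ) (p : ℝ × ℝ) :
    HasFDerivAt (r.Fh t)
      ((ContinuousLinearMap.snd ℝ ℝ ℝ).smulRight ((1 + t * sg p.1 * r.μ p.2) • r.M' p.2)
      + (ContinuousLinearMap.fst ℝ ℝ ℝ).smulRight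
        ((t * sg' p.1) • r.D p.2 + (2 * p.1) • r.e)) p := by
  have h1 : HasFDerivAt (fun q : ℝ × ℝ => r.M q.2) _ p :=
    (r.hM p.2).hasFDerivAt.comp p (hasFDerivAt_snd (𝕜 := ℝ) (p := p))
  have h2 : HasFDerivAt (fun q : ℝ × ℝ => r.D q.2) _ p :=
    (r.hD p.2).hasFDerivAt.comp p (hasFDerivAt_snd (𝕜 := ℝ) (p := p))
  have h4 : HasFDerivAt (fun q : ℝ × ℝ => t * sg q.1) _ p :=
    ((hasDerivAt_sg p.1).const_mul t).hasFDerivAt.comp p (hasFDerivAt_fst (𝕜 := ℝ) (p := p))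
  have h5 : HasFDerivAt (fun q : ℝ × ℝ => q.1 ^ 2) _ p :=
    (hasDerivAt_pow 2 p.1).hasFDerivAt.comp p (hasFDerivAt_fst (𝕜 := ℝ) (p := p))
  have h6 : HasFDerivAt (fun q : ℝ × ℝ => (q.1 ^ 2) • r.e) _ p :=
    h5.smul_const r.e
  refine ((h1.add (h4.smul h2)).add h6).congr_fderiv ?_
  ext
  · simp
  · simp [add_smul, smul_smul]

lemma hasFDerivAt_Psi {t : ℝ} (ht : 0 < t) (p : ℝ × ℝ) :
    HasFDerivAt (r.Psi t)
      ((gg t p.1 • ContinuousLinearMap.fst ℝ ℝ ℝ).prod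
        (((1 + t * sg p.1 * r.μ p.2) * r.ρ p.2) • ContinuousLinearMap.snd ℝ ℝ ℝ
          + (t * sg' p.1 * r.w p.2) • ContinuousLinearMap.fst ℝ ℝ ℝ)) p := by
  have h1 : HasFDerivAt (fun q : ℝ × ℝ => GG t q.1) _ p :=
    (hasDerivAt_GG ht p.1).hasFDerivAt.comp p (hasFDerivAt_fst (𝕜 := ℝ) (p := p))
  have h2 : HasFDerivAt (fun q : ℝ × ℝ => r.S q.2) _ p :=
    (r.hS p.2).hasFDerivAt.comp p (hasFDerivAt_snd (𝕜 := ℝ) (p := p))
  have h3 : HasFDerivAt (fun q : ℝ × ℝ => r.w q.2) _ p :=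
    (r.hw p.2).hasFDerivAt.comp p (hasFDerivAt_snd (𝕜 := ℝ) (p := p))
  have h4 : HasFDerivAt (fun q : ℝ × ℝ => t * sg q.1) _ p :=
    ((hasDerivAt_sg p.1).const_mul t).hasFDerivAt.comp p (hasFDerivAt_fst (𝕜 := ℝ) (p := p))
  refine (h1.prodMk (h2.add (h4.mul h3))).congr_fderiv ?_
  ext <;> simp <;> ring

/-- the pointwise isometry computation -/
lemma norm_sq_combo {x y e : V} {ρ w : ℝ} (h1 : ⟪x, x⟫_ℝ = ρ ^ 2) (h2 : ⟪y, x⟫_ℝ = w * ρ)
    (h3 : ⟪y, y⟫_ℝ = 1 + w ^ 2) (h4 : ⟪e, x⟫_ℝ = 0) (h5 : ⟪e, y⟫_ℝ = 0) (h6 : ⟪e, e⟫_ℝ = 1)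
    (α β γ : ℝ) : ‖α • x + (β • y + γ • e)‖ ^ 2 = (α * ρ + β * w) ^ 2 + β ^ 2 + γ ^ 2 := by
  have h2' : ⟪x, y⟫_ℝ = w * ρ := by rw [real_inner_comm]; exact h2
  have h4' : ⟪x, e⟫_ℝ = 0 := by rw [real_inner_comm]; exact h4
  have h5' : ⟪y, e⟫_ℝ = 0 := by rw [real_inner_comm]; exact h5
  rw [← real_inner_self_eq_norm_sq]
  simp only [inner_add_left, inner_add_right, inner_smul_left, inner_smul_right, h1, h2, h3, h4,
    h5, h6, h2', h4', h5', RCLike.conj_to_real]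
  ring

lemma Fh_fderiv_norm {t : ℝ} (ht : 0 < t) (p k : ℝ × ℝ) :
    ‖fderiv ℝ (r.Fh t) p k‖ ^ 2
      = (fderiv ℝ (r.Psi t) p k).1 ^ 2 + (fderiv ℝ (r.Psi t) p k).2 ^ 2 := by
  rw [(r.hasFDerivAt_Fh t p).fderiv, (r.hasFDerivAt_Psi ht p).fderiv]
  have hg := gg_sq ht p.1
  have e1 : (((ContinuousLinearMap.snd ℝ ℝ ℝ).smulRight ((1 + t * sg p.1 * r.μ p.2) • r.M' p.2)
      + (ContinuousLinearMap.fst ℝ ℝ ℝ).smulRight
        ((t * sg' p.1) • r.D p.2 + (2 * p.1) • r.e)) : (ℝ × ℝ) →L[ℝ] V) k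
      = (k.2 * (1 + t * sg p.1 * r.μ p.2)) • r.M' p.2
        + ((k.1 * (t * sg' p.1)) • r.D p.2 + (k.1 * (2 * p.1)) • r.e) := by
    simp [smul_smul]
  rw [e1, norm_sq_combo (r.i1 p.2) (r.i2 p.2) (r.i3 p.2) (r.eM' p.2) (r.eD p.2) r.ee]
  simp
  linear_combination -(k.1 ^ 2) * hg

lemma one_add_mul_ge {t : ℝ} (ht : 0 < t) (htB : t * r.B ≤ 1 / 2) (u φ : ℝ) :
    1 / 2 ≤ 1 + t * sg u * r.μ φ := by
  have h1 := (abs_sg_lt u).le
  have h2 := r.μ_le φ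
  have h3 : |t * sg u * r.μ φ| ≤ 1 / 2 := by
    rw [abs_mul, abs_mul, abs_of_pos ht]
    calc t * |sg u| * |r.μ φ| ≤ t * 1 * r.B := by
          have := abs_nonneg (sg u)
          have := r.B_pos
          gcongr
      _ ≤ 1 / 2 := by linarith
  have := (abs_le.mp h3).1
  linarith

lemma Psi_fderiv_inj {t : ℝ} (ht : 0 < t) (htB : t * r.B ≤ 1 / 2) (p k : ℝ × ℝ)
    (hk : fderiv ℝ (r.Psi t) p k = 0) : k = 0 := by
  rw [(r.hasFDerivAt_Psi ht p).fderiv] at hk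
  have hk1 := congrArg Prod.fst hk
  have hk2 := congrArg Prod.snd hk
  simp at hk1 hk2
  have hg : gg t p.1 ≠ 0 := (Real.sqrt_pos.mpr (gg_arg_pos ht p.1)).ne'
  have h1 : k.1 = 0 := by
    rcases hk1 with h | h
    · exact absurd h hg
    · exact h
  have h0 := r.one_add_mul_ge ht htB p.1 p.2
  have hρ : 0 < r.ρ p.2 := lt_of_lt_of_le r.r0_pos (r.ρ_ge p.2)
  rw [h1, mul_zero, add_zero] at hk2
  have h2 : k.2 = 0 := by
    rcases mul_eq_zero.mp hk2 with h | h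
    · rcases mul_eq_zero.mp h with h' | h'
      · linarith
      · exact absurd h' hρ.ne'
    · exact h
  exact Prod.ext h1 h2

lemma Psi_bijective {t : ℝ} (ht : 0 < t) (ht1 : t ≤ 1) (htB : t * r.B ≤ 1 / 2) :
    Function.Bijective (r.Psi t) := by
  have hline : ∀ u, Function.Bijective (fun φ => r.S φ + t * sg u * r.w φ) := by
    intro u
    refine bijective_of_deriv_ge (f' := fun φ => (1 + t * sg u * r.μ φ) * r.ρ φ)
      (c := r.r0 / 2) ?_ (by have := r.r0_pos; positivity) ?_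
    · intro φ
      exact ((r.hS φ).add ((r.hw φ).const_mul (t * sg u))).congr_deriv (by ring)
    · intro φ
      have h0 := r.one_add_mul_ge ht htB u φ
      have h1 := r.ρ_ge φ
      have h2 := r.r0_pos
      nlinarith
  constructor
  · rintro ⟨u, φ⟩ ⟨u', φ'⟩ h
    simp only [Psi, Prod.mk.injEq] at h
    have hu := (GG_bijective ht ht1).1 h.1
    subst hu
    have hφ := (hline u).1 h.2
    rw [hφ]
  · rintro ⟨x, y⟩
    obtain ⟨u, hu⟩ := (GG_bijective ht ht1).2 x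
    obtain ⟨φ, hφ⟩ := (hline u).2 y
    exact ⟨(u, φ), Prod.ext hu hφ⟩

lemma Psi_turn (t u φ : ℝ) :
    r.Psi t (-u, φ + π) = (-(r.Psi t (u, φ)).1, (r.Psi t (u, φ)).2 + r.a0) := by
  unfold Psi
  simp only [GG_neg, r.pS, r.pw, sg_neg, Prod.mk.injEq, true_and]
  ring

lemma Psi_shift (t u φ : ℝ) (j : ℤ) :
    r.Psi t ((-1 : ℝ) ^ j * u, φ + j * π)
      = ((-1 : ℝ) ^ j * (r.Psi t (u, φ)).1, (r.Psi t (u, φ)).2 + j * r.a0) := by
  have hG : GG t ((-1 : ℝ) ^ j * u) = (-1 : ℝ) ^ j * GG t u := by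
    rcases Int.even_or_odd j with h | h
    · rw [h.neg_one_zpow, one_mul, one_mul]
    · rw [h.neg_one_zpow, neg_one_mul, neg_one_mul, GG_neg]
  have hs : sg ((-1 : ℝ) ^ j * u) = (-1 : ℝ) ^ j * sg u := by
    rcases Int.even_or_odd j with h | h
    · rw [h.neg_one_zpow, one_mul, one_mul]
    · rw [h.neg_one_zpow, neg_one_mul, neg_one_mul, sg_neg]
  unfold Psi
  simp only [hG, hs, r.S_shift, r.w_shift, Prod.mk.injEq, true_and]
  have := neg_one_zpow_sq j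
  linear_combination t * sg u * r.w φ * this

lemma Fh_turn (t u φ : ℝ) : r.Fh t (-u, φ + π) = r.Fh t (u, φ) := by
  unfold Fh
  simp only [r.pM, r.pD, sg_neg, neg_sq]
  simp

lemma inner_e_Fh (t : ℝ) (p : ℝ × ℝ) : ⟪r.e, r.Fh t p⟫_ℝ = p.1 ^ 2 := by
  unfold Fh
  rw [inner_add_right, inner_add_right, inner_smul_right, inner_smul_right, r.eM, r.eD, r.ee]
  ring

/-- The main construction: a closed half-twisted developable ribbon wraps to an isometric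
embedding of the complete flat Moebius strip. -/
theorem wrap : ∃ t : ℝ, 0 < t ∧ ∃ F : ℝ × ℝ → V, ContDiff ℝ ∞ F ∧
    (∀ p k, ‖fderiv ℝ F p k‖ ^ 2 = k.1 ^ 2 + k.2 ^ 2) ∧
    (∀ x y, F (-x, y + r.a0) = F (x, y)) ∧
    (∀ p q, F p = F q → ∃ j : ℤ, q = ((-1 : ℝ) ^ j * p.1, p.2 + j * r.a0)) ∧
    Set.range F = Set.range (r.Fh t) := by
  obtain ⟨t1, ht1, htube⟩ := r.exists_tube
  set t : ℝ := min t1 (min 1 (1 / (2 * r.B))) with ht
  have hB := r.B_pos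
  have htpos : 0 < t := lt_min ht1 (lt_min one_pos (by positivity))
  have htle : t ≤ t1 := min_le_left _ _
  have htone : t ≤ 1 := (min_le_right _ _).trans (min_le_left _ _)
  have htB : t * r.B ≤ 1 / 2 := by
    have h : t ≤ 1 / (2 * r.B) := (min_le_right _ _).trans (min_le_right _ _)
    calc t * r.B ≤ 1 / (2 * r.B) * r.B := by gcongr
      _ = 1 / 2 := by field_simp
  clear_value t
  obtain ⟨Φ, hΦs, hΦ1, hΦ2⟩ := exists_smooth_inverse (r.contDiff_Psi htpos)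
    (r.Psi_bijective htpos htone htB) (r.Psi_fderiv_inj htpos htB)
  refine ⟨t, htpos, fun p => r.Fh t (Φ p), (r.contDiff_Fh t).comp hΦs, ?_, ?_, ?_, ?_⟩
  · intro p k
    have hd1 : HasFDerivAt (fun p => r.Fh t (Φ p))
        ((fderiv ℝ (r.Fh t) (Φ p)).comp (fderiv ℝ Φ p)) p :=
      (((r.contDiff_Fh t).differentiable (by simp)) (Φ p)).hasFDerivAt.comp p
        ((hΦs.differentiable (by simp)) p).hasFDerivAt
    have hd2 : HasFDerivAt (fun p => r.Psi t (Φ p))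
        ((fderiv ℝ (r.Psi t) (Φ p)).comp (fderiv ℝ Φ p)) p :=
      (((r.contDiff_Psi htpos).differentiable (by simp)) (Φ p)).hasFDerivAt.comp p
        ((hΦs.differentiable (by simp)) p).hasFDerivAt
    have hid : (fun p => r.Psi t (Φ p)) = id := funext hΦ2
    rw [hid] at hd2
    have heq := hd2.unique (hasFDerivAt_id p)
    have hk : fderiv ℝ (r.Psi t) (Φ p) (fderiv ℝ Φ p k) = k := by
      have := congrArg (fun L : (ℝ × ℝ) →L[ℝ] (ℝ × ℝ) => L k) heq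
      simpa using this
    rw [hd1.fderiv]
    have hn := r.Fh_fderiv_norm htpos (Φ p) (fderiv ℝ Φ p k)
    rw [hk] at hn
    simpa using hn
  · intro x y
    obtain ⟨q, hq⟩ : ∃ q, q = Φ (x, y) := ⟨_, rfl⟩
    have h1 : r.Psi t q = (x, y) := by rw [hq]; exact hΦ2 _
    have h2 := r.Psi_turn t q.1 q.2
    rw [Prod.mk.eta, h1] at h2
    simp only at h2
    have h3 : Φ (-x, y + r.a0) = (-q.1, q.2 + π) := by
      rw [← h2]; exact hΦ1 _
    simp only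
    rw [h3, Fh_turn, ← hq]
  · intro p q h
    simp only at h
    set a := Φ p with ha
    set b := Φ q with hb
    have hap : r.Psi t a = p := hΦ2 p
    have hbq : r.Psi t b = q := hΦ2 q
    have h1 := congrArg (fun x => ⟪r.e, x⟫_ℝ) h
    simp only [inner_e_Fh] at h1
    have hE : r.E (t * sg a.1, a.2) = r.E (t * sg b.1, b.2) := by
      unfold Fh at h
      unfold E
      rw [h1] at h
      exact add_right_cancel h
    have habs : ∀ u, |t * sg u| < t1 := fun u => by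
      rw [abs_mul, abs_of_pos htpos]
      calc t * |sg u| < t * 1 := by gcongr; exact abs_sg_lt u
        _ ≤ t1 := by linarith
    obtain ⟨j, hj1, hj2⟩ := htube _ _ _ _ (habs a.1) (habs b.1) hE
    have hs : sg b.1 = sg ((-1 : ℝ) ^ j * a.1) := by
      have hs' : sg ((-1 : ℝ) ^ j * a.1) = (-1 : ℝ) ^ j * sg a.1 := by
        rcases Int.even_or_odd j with h | h
        · rw [h.neg_one_zpow, one_mul, one_mul]
        · rw [h.neg_one_zpow, neg_one_mul, neg_one_mul, sg_neg]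
      rw [hs']
      apply mul_left_cancel₀ htpos.ne'
      rw [hj2]; ring
    have hb1 : b.1 = (-1 : ℝ) ^ j * a.1 := sg_inj hs
    refine ⟨j, ?_⟩
    have hbb : b = ((-1 : ℝ) ^ j * a.1, a.2 + j * π) := Prod.ext hb1 hj1
    rw [← hbq, hbb, r.Psi_shift, Prod.mk.eta, hap]
  · ext x
    constructor
    · rintro ⟨p, rfl⟩
      exact ⟨Φ p, rfl⟩
    · rintro ⟨p, rfl⟩
      refine ⟨r.Psi t p, ?_⟩
      simp only
      rw [hΦ1]

end Ribbon

end MoebAlg
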