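import Mathlib
import Pool.Agent.Lib.MP_d21f85_gt.Ribbon
import Pool.Agent.Lib.MP_d21f85_gt.Curve
import Pool.Agent.Lib.MP_d21f85_gt.Defs

/-!
# The explicit ribbon in four-dimensional Euclidean space
-/

open Real Filter Topology
open scoped ContDiff InnerProductSpace

noncomputable section

namespace MoebAlg

/-- the vector with the given coordinates -/
def vec (a b c d : ℝ) : E4 :=
  a • EuclideanSpace.single 0 1 + b • EuclideanSpace.single 1 1
    + c • EuclideanSpace.single 2 1 + d • EuclideanSpace.single 3 1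

@[simp] lemma vec_0 (a b c d : ℝ) : (vec a b c d) 0 = a := by simp [vec]
@[simp] lemma vec_1 (a b c d : ℝ) : (vec a b c d) 1 = b := by simp [vec]
@[simp] lemma vec_2 (a b c d : ℝ) : (vec a b c d) 2 = c := by simp [vec]
@[simp] lemma vec_3 (a b c d : ℝ) : (vec a b c d) 3 = d := by simp [vec]

lemma inner_vec (a b c d a' b' c' d' : ℝ) :
    ⟪vec a b c d, vec a' b' c' d'⟫_ℝ = a * a' + b * b' + c * c' + d * d' := by
  rw [EuclideanSpace.inner_eq_star_dotProduct]
  simp [dotProduct, Fin.sum_univ_four]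
  ring

lemma smul_vec (t a b c d : ℝ) : t • vec a b c d = vec (t * a) (t * b) (t * c) (t * d) := by
  unfold vec; simp [smul_smul]

lemma add_vec (a b c d a' b' c' d' : ℝ) :
    vec a b c d + vec a' b' c' d' = vec (a + a') (b + b') (c + c') (d + d') := by
  unfold vec; simp only [add_smul]; abel

lemma neg_vec (a b c d : ℝ) : -vec a b c d = vec (-a) (-b) (-c) (-d) := by
  unfold vec; simp only [neg_smul]; abel

lemma hasDerivAt_vec {f g h : ℝ → ℝ} {f' g' h' x : ℝ} (hf : HasDerivAt f f' x)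
    (hg : HasDerivAt g g' x) (hh : HasDerivAt h h' x) :
    HasDerivAt (fun y => vec (f y) (g y) (h y) 0) (vec f' g' h' 0) x := by
  unfold vec
  exact (((hf.smul_const _).add (hg.smul_const _)).add (hh.smul_const _)).add
    (hasDerivAt_const x _) |>.congr_deriv (by simp)

lemma contDiff_vec {f g h : ℝ → ℝ} (hf : ContDiff ℝ ∞ f)
    (hg : ContDiff ℝ ∞ g) (hh : ContDiff ℝ ∞ h) :
    ContDiff ℝ ∞ (fun y => vec (f y) (g y) (h y) 0) := by
  unfold vec
  exact (((hf.smul contDiff_const).add (hg.smul contDiff_const)).add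
    (hh.smul contDiff_const)).add contDiff_const

lemma mu_le (φ : ℝ) : |mu φ| ≤ 20 := by
  have hq := qq_pos φ
  have hs := qq_sq φ
  have h1 := sin_sq_add_cos_sq φ
  have hk := kk_sq
  have hkp := kk_pos
  have hk7 : kk ≤ 7 := by nlinarith
  have hq2 : 2 ≤ qq φ := by
    have : (2 : ℝ) ^ 2 ≤ qq φ ^ 2 := by
      rw [hs]; unfold del; nlinarith [sq_nonneg (sin φ), sq_nonneg (cos φ)]
    exact le_of_sq_le_sq this (by linarith) |>.trans le_rfl
  have hq5 : 32 ≤ qq φ ^ 5 := by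
    calc (32 : ℝ) = 2 ^ 5 := by norm_num
      _ ≤ qq φ ^ 5 := by gcongr
  have hc : |cos φ| ≤ 1 := abs_cos_le_one φ
  have hd : |cos φ ^ 2 - 29 * sin φ ^ 2| ≤ 29 := by
    rw [abs_le]; constructor <;> nlinarith [sq_nonneg (sin φ), sq_nonneg (cos φ)]
  unfold mu
  rw [abs_div, abs_mul, abs_mul, abs_neg, abs_of_pos (by positivity : 0 < 20 * kk / 7),
    abs_of_pos (by positivity : 0 < qq φ ^ 5), div_le_iff₀ (by positivity)]
  calc 20 * kk / 7 * |cos φ| * |cos φ ^ 2 - 29 * sin φ ^ 2| ≤ 20 * 7 / 7 * 1 * 29 := by gcongr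
    _ ≤ 20 * 32 := by norm_num
    _ ≤ 20 * qq φ ^ 5 := by linarith

/-- the explicit ribbon -/
def ribbon : Ribbon E4 where
  M := fun φ => vec (M1 φ) (M2 φ) (M3 φ) 0
  M' := fun φ => vec (N1 φ) (N2 φ) (N3 φ) 0
  D := fun φ => vec (D1 φ) (D2 φ) (D3 φ) 0
  e := vec 0 0 0 1
  S := SS
  w := ww
  μ := mu
  ρ := rho
  r0 := 46
  B := 20
  a0 := 84 * π
  r0_pos := by norm_num
  ρ_ge := rho_ge
  B_pos := by norm_num
  μ_le := mu_le
  hM := fun φ => hasDerivAt_vec (hasDerivAt_M1 φ) (hasDerivAt_M2 φ) (hasDerivAt_M3 φ)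
  hD := fun φ => by
    rw [smul_vec, mul_zero]
    exact hasDerivAt_vec (hasDerivAt_D1 φ) (hasDerivAt_D2 φ) (hasDerivAt_D3 φ)
  hS := hasDerivAt_SS
  hw := hasDerivAt_ww
  sM := contDiff_vec contDiff_M1 contDiff_M2 contDiff_M3
  sD := contDiff_vec contDiff_D1 contDiff_D2 contDiff_D3
  sS := contDiff_SS
  sw := contDiff_ww
  i1 := fun φ => by rw [inner_vec, ← id_speed]; ring
  i2 := fun φ => by rw [inner_vec, ← id_inner]; ring
  i3 := fun φ => by rw [inner_vec, ← id_norm]; ring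
  eM := fun φ => by rw [inner_vec]; ring
  eM' := fun φ => by rw [inner_vec]; ring
  eD := fun φ => by rw [inner_vec]; ring
  ee := by rw [inner_vec]; ring
  pM := fun φ => by rw [M1_add_pi, M2_add_pi, M3_add_pi]
  pD := fun φ => by rw [D1_add_pi, D2_add_pi, D3_add_pi, neg_vec, neg_zero]
  pw := ww_add_pi
  pS := SS_add_pi
  inj := fun φ ψ h => by
    have h0 := congrArg (fun v : E4 => v 0) h
    have h1 := congrArg (fun v : E4 => v 1) h
    simp only [vec_0, vec_1] at h0 h1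
    exact M_inj h0 h1

lemma ribbon_Fh (t : ℝ) (p : ℝ × ℝ) : ribbon.Fh t p
    = vec (M1 p.2 + t * sg p.1 * D1 p.2) (M2 p.2 + t * sg p.1 * D2 p.2)
      (M3 p.2 + t * sg p.1 * D3 p.2) (p.1 ^ 2) := by
  unfold Ribbon.Fh ribbon
  simp only [smul_vec, add_vec]
  congr 1 <;> ring

end MoebAlg
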