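import Mathlib
import Pool.Agent.Lib.MP_d21f85_gt.Ribbon
import Pool.Agent.Lib.MP_d21f85_gt.Curve

/-!
# Bounding the Hilbert function of the surface
-/

open Real Finset

noncomputable section

namespace MoebAlg

/-- functions of the two parameters `(u, φ)` -/
abbrev AA : Type := ℝ × ℝ → ℝ

/-- `cos φ` -/
def fc : AA := fun p => cos p.2
/-- `sin φ` -/
def fs : AA := fun p => sin p.2
/-- `u²` -/
def fh : AA := fun p => p.1 ^ 2
/-- `σ(u) / q(φ)³` -/
def fy : AA := fun p => sg p.1 / qq p.2 ^ 3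

/-- linear forms in `cos φ`, `sin φ` -/
def T1 : Submodule ℝ AA := Submodule.span ℝ {fc, fs}

lemma fc_mem : fc ∈ T1 := Submodule.subset_span (by simp)
lemma fs_mem : fs ∈ T1 := Submodule.subset_span (by simp)

lemma mono_mem (a b : ℕ) : fc ^ a * fs ^ b ∈ T1 ^ (a + b) := by
  rw [pow_add]
  exact Submodule.mul_mem_mul (Submodule.pow_mem_pow _ fc_mem a) (Submodule.pow_mem_pow _ fs_mem b)

lemma cs_one : fc ^ 2 + fs ^ 2 = 1 := by
  funext p
  simp [fc, fs]

lemma one_mem_T2 : (1 : AA) ∈ T1 ^ 2 := by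
  rw [← cs_one]
  refine add_mem ?_ ?_
  · simpa using mono_mem 2 0
  · simpa using mono_mem 0 2

lemma T1_le_add_two (N : ℕ) : T1 ^ N ≤ T1 ^ (N + 2) := by
  intro x hx
  rw [pow_add]
  have := Submodule.mul_mem_mul hx one_mem_T2
  simpa using this

lemma T1_le_add_even (N m : ℕ) : T1 ^ N ≤ T1 ^ (N + 2 * m) := by
  induction m with
  | zero => simp
  | succ m ih =>
    refine ih.trans ?_
    have := T1_le_add_two (N + 2 * m)
    simpa [mul_add, add_assoc] using this

lemma T1_pow_le_span (N : ℕ) :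
    T1 ^ N ≤ Submodule.span ℝ {f : AA | ∃ b ≤ N, f = fc ^ (N - b) * fs ^ b} := by
  induction N with
  | zero =>
    rw [pow_zero, Submodule.one_le]
    exact Submodule.subset_span ⟨0, le_rfl, by simp⟩
  | succ N ih =>
    rw [pow_succ]
    refine (mul_le_mul' ih le_rfl).trans ?_
    rw [T1, Submodule.span_mul_span, Submodule.span_le]
    rintro _ ⟨f, ⟨b, hb, rfl⟩, g, hg, rfl⟩
    simp only [Set.mem_insert_iff, Set.mem_singleton_iff] at hg
    rcases hg with rfl | rfl
    · refine Submodule.subset_span ⟨b, by omega, ?_⟩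
      have : N + 1 - b = (N - b) + 1 := by omega
      rw [this, pow_succ]
      simp only
      ring
    · refine Submodule.subset_span ⟨b + 1, by omega, ?_⟩
      have : N + 1 - (b + 1) = N - b := by omega
      rw [this, pow_succ]
      simp only
      ring

/-- `δ = 4 cos² + 64 sin²` as a function -/
def fd : AA := 4 * fc ^ 2 + 64 * fs ^ 2

lemma fd_apply (p : ℝ × ℝ) : fd p = del p.2 := by
  simp [fd, del, fc, fs]

/-- the algebraic relation between `h`, `y` and `δ` -/
lemma relation : fy ^ 2 * fd ^ 3 * fh = fh - fy ^ 2 * fd ^ 3 := by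
  funext p
  have hq := qq_ne p.2
  have hs := qq_sq p.2
  have h1 := sqrt_one_add_pos p.1
  have h2 : √(1 + p.1 ^ 2) ^ 2 = 1 + p.1 ^ 2 := Real.sq_sqrt (one_add_sq_pos p.1).le
  have h3 : fy p ^ 2 * fd p ^ 3 = p.1 ^ 2 / (1 + p.1 ^ 2) := by
    rw [fd_apply, ← hs]
    unfold fy sg
    have e1 : (p.1 / √(1 + p.1 ^ 2) / qq p.2 ^ 3) ^ 2 * (qq p.2 ^ 2) ^ 3
        = p.1 ^ 2 / √(1 + p.1 ^ 2) ^ 2 := by
      field_simp
    rw [e1, h2]
  have h4 := (one_add_sq_pos p.1).ne'
  simp only [Pi.mul_apply, Pi.pow_apply, Pi.sub_apply]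
  rw [h3]
  unfold fh
  field_simp
  ring

lemma fd_mem : fd ∈ T1 ^ 2 := by
  unfold fd
  refine add_mem ?_ ?_
  · have := Submodule.smul_mem (T1 ^ 2) (4 : ℝ) (mono_mem 2 0)
    convert this using 1
    funext p; simp
  · have := Submodule.smul_mem (T1 ^ 2) (64 : ℝ) (mono_mem 0 2)
    convert this using 1
    funext p; simp

lemma fd3_mem : fd ^ 3 ∈ T1 ^ 6 := by
  have := Submodule.pow_mem_pow _ fd_mem 3
  rwa [← pow_mul] at this

/-- elimination of `sin⁶` -/
lemma sin_six : fs ^ 6 = (1 / 262144 : ℝ) • fd ^ 3 - (1 / 4096 : ℝ) • fc ^ 6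
    - (48 / 4096 : ℝ) • (fc ^ 4 * fs ^ 2) - (768 / 4096 : ℝ) • (fc ^ 2 * fs ^ 4) := by
  funext p
  simp [fd]
  ring

/-- the basic functions -/
def ff (n e j b : ℕ) : AA := fh ^ e * fy ^ j * (fc ^ (6 * (n - e) + j - b) * fs ^ b)

/-- the big space -/
def WW (n : ℕ) : Submodule ℝ AA :=
  Submodule.span ℝ {f | ∃ e j : ℕ, ∃ t ∈ T1 ^ (6 * (n - e) + j), e + j ≤ n ∧
    f = fh ^ e * fy ^ j * t}

/-- the index set of the small spanning family -/
def JJ (n : ℕ) : Finset (ℕ × ℕ × ℕ) :=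
  ((((range (n + 1)).sigma fun e => range (6 * (n - e) + 1)).image fun x => (x.1, 0, x.2)) ∪
    (((range (n + 1)).sigma fun e => range (6 * (n - e) + 2)).image fun x => (x.1, 1, x.2))) ∪
  ((((range (n + 1)).sigma fun j => range (6 * n + j + 1)).image fun x => (0, x.1, x.2)) ∪
    (((range (n + 1)).sigma fun e => (range (n - e + 1)) ×ˢ (range 6)).image
      fun x => (x.1, x.2.1, x.2.2)))

/-- the small space -/
def UU (n : ℕ) : Submodule ℝ AA :=
  Submodule.span ℝ ((fun x : ℕ × ℕ × ℕ => ff n x.1 x.2.1 x.2.2) '' (JJ n : Set (ℕ × ℕ × ℕ)))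

lemma mem_JJ {n e j b : ℕ} (h1 : e + j ≤ n) (h2 : b ≤ 6 * (n - e) + j)
    (h3 : j ≤ 1 ∨ e = 0 ∨ b < 6) : (e, j, b) ∈ JJ n := by
  unfold JJ
  simp only [mem_union, mem_image, mem_sigma, mem_range, mem_product, Prod.mk.injEq]
  rcases h3 with h | h | h
  · left
    interval_cases j
    · left
      exact ⟨⟨e, b⟩, ⟨by simp only; omega, by simp only; omega⟩, rfl, rfl, rfl⟩
    · right
      exact ⟨⟨e, b⟩, ⟨by simp only; omega, by simp only; omega⟩, rfl, rfl, rfl⟩
  · right; left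
    subst h
    exact ⟨⟨j, b⟩, ⟨by simp only; omega, by simp only; omega⟩, rfl, rfl, rfl⟩
  · right; right
    exact ⟨⟨e, (j, b)⟩, ⟨by simp only; omega, by simp only; omega, h⟩, rfl, rfl, rfl⟩

lemma two_mul_sum_linear (n a b : ℕ) :
    2 * ∑ k ∈ range (n + 1), (a * k + b) = (n + 1) * (a * n + 2 * b) := by
  induction n with
  | zero => simp
  | succ n ih =>
    rw [sum_range_succ, mul_add, ih]
    ring

lemma card_JJ (n : ℕ) : 2 * (JJ n).card ≤ (n + 1) * (31 * n + 20) := by
  have hA : (((range (n + 1)).sigma fun e => range (6 * (n - e) + 1)).image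
      fun x => ((x.1, 0, x.2) : ℕ × ℕ × ℕ)).card ≤ ∑ k ∈ range (n + 1), (6 * k + 1) := by
    refine card_image_le.trans ?_
    rw [card_sigma]
    simp only [card_range]
    rw [← Finset.sum_flip (fun k => 6 * k + 1)]
  have hB : (((range (n + 1)).sigma fun e => range (6 * (n - e) + 2)).image
      fun x => ((x.1, 1, x.2) : ℕ × ℕ × ℕ)).card ≤ ∑ k ∈ range (n + 1), (6 * k + 2) := by
    refine card_image_le.trans ?_
    rw [card_sigma]
    simp only [card_range]
    rw [← Finset.sum_flip (fun k => 6 * k + 2)]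
  have hC : (((range (n + 1)).sigma fun j => range (6 * n + j + 1)).image
      fun x => ((0, x.1, x.2) : ℕ × ℕ × ℕ)).card
      ≤ ∑ k ∈ range (n + 1), (1 * k + (6 * n + 1)) := by
    refine card_image_le.trans ?_
    rw [card_sigma]
    simp only [card_range]
    refine le_of_eq (sum_congr rfl fun k _ => by ring)
  have hD : (((range (n + 1)).sigma fun e => (range (n - e + 1)) ×ˢ (range 6)).image
      fun x => ((x.1, x.2.1, x.2.2) : ℕ × ℕ × ℕ)).card ≤ ∑ k ∈ range (n + 1), (6 * k + 6) := by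
    refine card_image_le.trans ?_
    rw [card_sigma]
    simp only [card_range, card_product]
    rw [← Finset.sum_flip (fun k => 6 * k + 6)]
    refine le_of_eq (sum_congr rfl fun k _ => by ring)
  have sA := two_mul_sum_linear n 6 1
  have sB := two_mul_sum_linear n 6 2
  have sC := two_mul_sum_linear n 1 (6 * n + 1)
  have sD := two_mul_sum_linear n 6 6
  unfold JJ
  have hU := (card_union_le (((((range (n + 1)).sigma fun e => range (6 * (n - e) + 1)).image
      fun x => ((x.1, 0, x.2) : ℕ × ℕ × ℕ)) ∪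
    (((range (n + 1)).sigma fun e => range (6 * (n - e) + 2)).image
      fun x => ((x.1, 1, x.2) : ℕ × ℕ × ℕ))))
    ((((range (n + 1)).sigma fun j => range (6 * n + j + 1)).image
      fun x => ((0, x.1, x.2) : ℕ × ℕ × ℕ)) ∪
    (((range (n + 1)).sigma fun e => (range (n - e + 1)) ×ˢ (range 6)).image
      fun x => ((x.1, x.2.1, x.2.2) : ℕ × ℕ × ℕ))))
  have hU1 := (card_union_le ((((range (n + 1)).sigma fun e => range (6 * (n - e) + 1)).image
      fun x => ((x.1, 0, x.2) : ℕ × ℕ × ℕ)))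
    (((range (n + 1)).sigma fun e => range (6 * (n - e) + 2)).image
      fun x => ((x.1, 1, x.2) : ℕ × ℕ × ℕ)))
  have hU2 := (card_union_le ((((range (n + 1)).sigma fun j => range (6 * n + j + 1)).image
      fun x => ((0, x.1, x.2) : ℕ × ℕ × ℕ)))
    (((range (n + 1)).sigma fun e => (range (n - e + 1)) ×ˢ (range 6)).image
      fun x => ((x.1, x.2.1, x.2.2) : ℕ × ℕ × ℕ)))
  nlinarith

lemma ff_mem_UU {n e j b : ℕ} (h1 : e + j ≤ n) (h2 : b ≤ 6 * (n - e) + j)
    (h3 : j ≤ 1 ∨ e = 0 ∨ b < 6) : ff n e j b ∈ UU n :=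
  Submodule.subset_span ⟨(e, j, b), mem_JJ h1 h2 h3, rfl⟩

/-- multiplication of a fixed function into the homogeneous forms -/
lemma mul_form_mem {n e j : ℕ} {U : Submodule ℝ AA}
    (h : ∀ b ≤ 6 * (n - e) + j, ff n e j b ∈ U) {t : AA} (ht : t ∈ T1 ^ (6 * (n - e) + j)) :
    fh ^ e * fy ^ j * t ∈ U := by
  have hle : T1 ^ (6 * (n - e) + j) ≤ U.comap (LinearMap.mulLeft ℝ (fh ^ e * fy ^ j)) := by
    refine (T1_pow_le_span _).trans ?_
    rw [Submodule.span_le]
    rintro x ⟨b, hb, rfl⟩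
    exact h b hb
  exact hle ht

/-- the reduction step -/
lemma reduction (n e j b : ℕ)
    (h2 : b + 6 ≤ 6 * (n - (e + 1)) + (j + 2)) :
    ff n (e + 1) (j + 2) (b + 6)
      = (1 / 262144 : ℝ) • (fh ^ (e + 1) * fy ^ j *
          (fc ^ (6 * (n - (e + 1)) + (j + 2) - (b + 6)) * fs ^ b))
        - (1 / 262144 : ℝ) • (fh ^ e * fy ^ (j + 2) *
          (fd ^ 3 * (fc ^ (6 * (n - (e + 1)) + (j + 2) - (b + 6)) * fs ^ b)))
        - (1 / 4096 : ℝ) • ff n (e + 1) (j + 2) b
        - (48 / 4096 : ℝ) • ff n (e + 1) (j + 2) (b + 2)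
        - (768 / 4096 : ℝ) • ff n (e + 1) (j + 2) (b + 4) := by
  set m := 6 * (n - (e + 1)) + (j + 2) - (b + 6) with hm
  have e0 : 6 * (n - (e + 1)) + (j + 2) - b = m + 6 := by omega
  have e2 : 6 * (n - (e + 1)) + (j + 2) - (b + 2) = m + 4 := by omega
  have e4 : 6 * (n - (e + 1)) + (j + 2) - (b + 4) = m + 2 := by omega
  unfold ff
  rw [← hm, e0, e2, e4]
  funext p
  have hr := congrFun relation p
  have hs := congrFun sin_six p
  simp only [Pi.mul_apply, Pi.pow_apply, Pi.sub_apply, Pi.smul_apply, smul_eq_mul] at hr hs ⊢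
  linear_combination (fh p ^ (e + 1) * fy p ^ (j + 2) * fc p ^ m * fs p ^ b) * hs
    + (1 / 262144 : ℝ) * (fh p ^ e * fy p ^ j * fc p ^ m * fs p ^ b) * hr

lemma all_ff_mem (n : ℕ) : ∀ k e j b : ℕ, e + j = k → e + j ≤ n → b ≤ 6 * (n - e) + j →
    ff n e j b ∈ UU n := by
  intro k
  induction k using Nat.strong_induction_on with
  | _ k ih =>
    intro e j b hk h1
    induction b using Nat.strong_induction_on with
    | _ b ihb =>
      intro h2
      by_cases h3 : j ≤ 1 ∨ e = 0 ∨ b < 6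
      · exact ff_mem_UU h1 h2 h3
      push Not at h3
      obtain ⟨hj, he, hb⟩ := h3
      obtain ⟨j', rfl⟩ : ∃ j', j = j' + 2 := ⟨j - 2, by omega⟩
      obtain ⟨e', rfl⟩ : ∃ e', e = e' + 1 := ⟨e - 1, by omega⟩
      obtain ⟨b', rfl⟩ : ∃ b', b = b' + 6 := ⟨b - 6, by omega⟩
      rw [reduction n e' j' b' h2]
      have t1 : fc ^ (6 * (n - (e' + 1)) + (j' + 2) - (b' + 6)) * fs ^ b'
          ∈ T1 ^ (6 * (n - (e' + 1)) + j' - 4) := by
        have := mono_mem (6 * (n - (e' + 1)) + (j' + 2) - (b' + 6)) b'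
        have e1 : 6 * (n - (e' + 1)) + (j' + 2) - (b' + 6) + b'
          = 6 * (n - (e' + 1)) + j' - 4 := by omega
        rwa [e1] at this
      have a1 : fh ^ (e' + 1) * fy ^ j' *
          (fc ^ (6 * (n - (e' + 1)) + (j' + 2) - (b' + 6)) * fs ^ b') ∈ UU n := by
        refine mul_form_mem (n := n) (fun b hb => ?_) ?_
        · exact ih (e' + 1 + j') (by omega) _ _ _ rfl (by omega) hb
        · have := T1_le_add_even (6 * (n - (e' + 1)) + j' - 4) 2 t1
          have e1 : 6 * (n - (e' + 1)) + j' - 4 + 2 * 2 = 6 * (n - (e' + 1)) + j' := by omega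
          rwa [e1] at this
      have a2 : fh ^ e' * fy ^ (j' + 2) *
          (fd ^ 3 * (fc ^ (6 * (n - (e' + 1)) + (j' + 2) - (b' + 6)) * fs ^ b')) ∈ UU n := by
        refine mul_form_mem (n := n) (fun b hb => ?_) ?_
        · exact ih (e' + (j' + 2)) (by omega) _ _ _ rfl (by omega) hb
        · have h6 := Submodule.mul_mem_mul fd3_mem t1
          rw [← pow_add] at h6
          have := T1_le_add_even (6 + (6 * (n - (e' + 1)) + j' - 4)) 3 h6
          have e1 : 6 + (6 * (n - (e' + 1)) + j' - 4) + 2 * 3 = 6 * (n - e') + (j' + 2) := by omega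
          rwa [e1] at this
      refine sub_mem (sub_mem (sub_mem (sub_mem ?_ ?_) ?_) ?_) ?_
      · exact Submodule.smul_mem _ _ a1
      · exact Submodule.smul_mem _ _ a2
      · exact Submodule.smul_mem _ _ (ihb b' (by omega) (by omega))
      · exact Submodule.smul_mem _ _ (ihb (b' + 2) (by omega) (by omega))
      · exact Submodule.smul_mem _ _ (ihb (b' + 4) (by omega) (by omega))

lemma WW_le_UU (n : ℕ) : WW n ≤ UU n := by
  unfold WW
  rw [Submodule.span_le]
  rintro f ⟨e, j, t, ht, h, rfl⟩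
  exact mul_form_mem (fun b hb => all_ff_mem n (e + j) e j b rfl h hb) ht

lemma finrank_UU (n : ℕ) : 2 * Module.finrank ℝ (UU n) ≤ (n + 1) * (31 * n + 20) := by
  refine le_trans ?_ (card_JJ n)
  refine Nat.mul_le_mul_left 2 ?_
  classical
  unfold UU
  have h := finrank_span_finset_le_card (R := ℝ)
    ((JJ n).image fun x : ℕ × ℕ × ℕ => ff n x.1 x.2.1 x.2.2)
  rw [coe_image] at h
  exact h.trans card_image_le

instance (n : ℕ) : FiniteDimensional ℝ (UU n) := by
  unfold UU
  exact FiniteDimensional.span_of_finite ℝ ((JJ n).finite_toSet.image _)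

/-! ### multiplication by the coordinate functions -/

lemma WW_mul_form {n : ℕ} {f m : AA} (hf : f ∈ WW n) (hm : m ∈ T1 ^ 6) : f * m ∈ WW (n + 1) := by
  have hle : WW n ≤ (WW (n + 1)).comap (LinearMap.mulRight ℝ m) := by
    unfold WW
    rw [Submodule.span_le]
    rintro x ⟨e, j, t, ht, h, rfl⟩
    refine Submodule.subset_span ⟨e, j, t * m, ?_, by omega, ?_⟩
    · have := Submodule.mul_mem_mul ht hm
      rw [← pow_add] at this
      have e1 : 6 * (n - e) + j + 6 = 6 * (n + 1 - e) + j := by omega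
      rwa [e1] at this
    · simp only [LinearMap.mulRight_apply, mul_assoc]
  exact hle hf

lemma WW_mul_ruling {n : ℕ} {f r : AA} (hf : f ∈ WW n) (hr : r ∈ T1 ^ 7) :
    f * (fy * r) ∈ WW (n + 1) := by
  have hle : WW n ≤ (WW (n + 1)).comap (LinearMap.mulRight ℝ (fy * r)) := by
    unfold WW
    rw [Submodule.span_le]
    rintro x ⟨e, j, t, ht, h, rfl⟩
    refine Submodule.subset_span ⟨e, j + 1, t * r, ?_, by omega, ?_⟩
    · have := Submodule.mul_mem_mul ht hr
      rw [← pow_add] at this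
      have e1 : 6 * (n - e) + j + 7 = 6 * (n + 1 - e) + (j + 1) := by omega
      rwa [e1] at this
    · simp only [LinearMap.mulRight_apply, pow_succ]
      ring
  exact hle hf

lemma WW_mul_h {n : ℕ} {f : AA} (hf : f ∈ WW n) : f * fh ∈ WW (n + 1) := by
  have hle : WW n ≤ (WW (n + 1)).comap (LinearMap.mulRight ℝ fh) := by
    unfold WW
    rw [Submodule.span_le]
    rintro x ⟨e, j, t, ht, h, rfl⟩
    refine Submodule.subset_span ⟨e + 1, j, t, ?_, by omega, ?_⟩
    · have e1 : n - e = n + 1 - (e + 1) := by omega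
      rwa [e1] at ht
    · simp only [LinearMap.mulRight_apply, pow_succ]
      ring
  exact hle hf

lemma WW_le_succ (n : ℕ) : WW n ≤ WW (n + 1) := by
  intro f hf
  have h6 : (1 : AA) ∈ T1 ^ 6 := by
    have := T1_le_add_even 0 3 (by simp : (1 : AA) ∈ T1 ^ 0)
    simpa using this
  simpa using WW_mul_form hf h6

lemma one_mem_WW : (1 : AA) ∈ WW 0 := by
  refine Submodule.subset_span ⟨0, 0, 1, ?_, le_rfl, by simp⟩
  simp

lemma WW_mono {m n : ℕ} (h : m ≤ n) : WW m ≤ WW n := by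
  induction n, h using Nat.le_induction with
  | base => exact le_rfl
  | succ n _ ih => exact ih.trans (WW_le_succ n)

/-- A function that is a form of degree six plus `fy` times a form of degree seven, or `fh`. -/
def Good (g : AA) : Prop := ∀ n : ℕ, ∀ f ∈ WW n, f * g ∈ WW (n + 1)

lemma good_coord {m r : AA} (lam t : ℝ) (hm : m ∈ T1 ^ 6) (hr : r ∈ T1 ^ 7) :
    Good (lam • (m + t • (fy * r))) := by
  intro n f hf
  have e : f * (lam • (m + t • (fy * r))) = lam • (f * m + t • (f * (fy * r))) := by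
    rw [mul_smul_comm, mul_add, mul_smul_comm]
  rw [e]
  exact Submodule.smul_mem _ _ (add_mem (WW_mul_form hf hm)
    (Submodule.smul_mem _ _ (WW_mul_ruling hf hr)))

lemma good_h (lam : ℝ) : Good (lam • fh) := by
  intro n f hf
  rw [mul_smul_comm]
  exact Submodule.smul_mem _ _ (WW_mul_h hf)

/-- polynomials of degree at most `n` in good functions lie in `WW n` -/
lemma aeval_mem_WW {g : Fin 4 → AA} (hg : ∀ i, Good (g i)) (n : ℕ)
    {p : MvPolynomial (Fin 4) ℝ} (hp : p ∈ MvPolynomial.restrictTotalDegree (Fin 4) ℝ n) :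
    MvPolynomial.aeval g p ∈ WW n := by
  have hpow : ∀ (i : Fin 4) (k m : ℕ) (f : AA), f ∈ WW m → f * g i ^ k ∈ WW (m + k) := by
    intro i k
    induction k with
    | zero => intro m f hf; simpa using hf
    | succ k ih =>
      intro m f hf
      have := hg i _ _ (ih m f hf)
      rw [pow_succ, ← mul_assoc]
      exact this
  have hmon : ∀ m : Fin 4 →₀ ℕ, (m.sum fun _ e => e) ≤ n →
      (m.prod fun i k => g i ^ k) ∈ WW n := by
    intro m hm
    refine WW_mono hm ?_
    rw [Finsupp.prod_fintype _ _ (fun i => pow_zero _), Finsupp.sum_fintype _ _ (fun i => rfl),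
      Fin.prod_univ_four, Fin.sum_univ_four]
    have h0 := hpow 0 (m 0) 0 1 one_mem_WW
    have h1 := hpow 1 (m 1) _ _ h0
    have h2 := hpow 2 (m 2) _ _ h1
    have h3 := hpow 3 (m 3) _ _ h2
    simpa using h3
  rw [MvPolynomial.mem_restrictTotalDegree] at hp
  rw [MvPolynomial.aeval_def, MvPolynomial.eval₂_eq']
  refine Submodule.sum_mem _ fun m hm => ?_
  have hdeg : (m.sum fun _ e => e) ≤ n := (MvPolynomial.le_totalDegree hm).trans hp
  have := hmon m hdeg
  rw [Finsupp.prod_fintype _ _ (fun i => pow_zero _)] at this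
  rw [← Algebra.smul_def]
  exact Submodule.smul_mem _ _ this

end MoebAlg
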