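import Mathlib
import Pool.Agent.Lib.MP_d21f85_gt.Defs

/-!
# Krull dimension at most two from quadratic growth of the Hilbert function
-/

open scoped ContDiff

noncomputable section

namespace MoebAlg

/-- an integral extension does not have larger Krull dimension -/
lemma ringKrullDim_le_of_isIntegral {R A : Type*} [CommRing R] [CommRing A] (g : R →+* A)
    (hg : g.IsIntegral) : ringKrullDim A ≤ ringKrullDim R := by
  let _ := g.toAlgebra
  have : Algebra.IsIntegral R A := ⟨hg⟩
  refine Order.krullDim_le_of_strictMono (PrimeSpectrum.comap (algebraMap R A)) ?_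
  intro P Q hPQ
  have h : P.asIdeal < Q.asIdeal := hPQ
  exact Ideal.IsIntegral.comap_lt_comap (R := R) h

/-- Substituting polynomials of degree at most `d` into a polynomial of degree at most `m`. -/
lemma totalDegree_aeval_le {s : ℕ} {d : ℕ} (p : Fin s → MvPolynomial (Fin 4) ℝ)
    (hp : ∀ i, (p i).totalDegree ≤ d) (m : Fin s →₀ ℕ) (c : ℝ) :
    (MvPolynomial.aeval p (MvPolynomial.monomial m c)).totalDegree ≤ d * (m.sum fun _ e => e) := by
  rw [MvPolynomial.aeval_monomial]
  refine (MvPolynomial.totalDegree_mul _ _).trans ?_
  have h0 : (algebraMap ℝ (MvPolynomial (Fin 4) ℝ) c).totalDegree = 0 :=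
    MvPolynomial.totalDegree_C c
  rw [h0, zero_add]
  unfold Finsupp.prod Finsupp.sum
  refine (MvPolynomial.totalDegree_finsetProd _ _).trans ?_
  rw [Finset.mul_sum]
  refine Finset.sum_le_sum fun i _ => ?_
  refine (MvPolynomial.totalDegree_pow _ _).trans ?_
  rw [mul_comm]
  exact Nat.mul_le_mul_right _ (hp i)

/-- If the Hilbert function of `S` grows at most quadratically, the ring of polynomial functions
on `S` has Krull dimension at most two. -/
theorem ringKrullDim_le_two {S : Set E4} {K : ℕ} (hK : ∀ n, hilb S n ≤ K * (n + 1) ^ 2) :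
    ringKrullDim (MvPolynomial (Fin 4) ℝ ⧸ vanish S) ≤ 2 := by
  by_cases htop : vanish S = ⊤
  · have : Subsingleton (MvPolynomial (Fin 4) ℝ ⧸ vanish S) :=
      Ideal.Quotient.subsingleton_iff.mpr htop
    rw [ringKrullDim_eq_bot_of_subsingleton]
    exact bot_le
  obtain ⟨s, -, g, hginj, hgint⟩ := exists_integral_inj_algHom_of_quotient (vanish S) htop
  have hs : s ≤ 2 := by
    by_contra hs3
    push Not at hs3
    -- lifts of the images of the variables
    have hlift : ∀ i : Fin s, ∃ p : MvPolynomial (Fin 4) ℝ,
        Ideal.Quotient.mk (vanish S) p = g (MvPolynomial.X i) := fun i =>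
      Ideal.Quotient.mk_surjective _
    choose p hp using hlift
    set d : ℕ := (Finset.univ.sup fun i => (p i).totalDegree) with hd
    have hpd : ∀ i, (p i).totalDegree ≤ d := fun i =>
      Finset.le_sup (f := fun i => (p i).totalDegree) (Finset.mem_univ i)
    have hg : ∀ q, Ideal.Quotient.mk (vanish S) (MvPolynomial.aeval p q) = g q := by
      intro q
      have : (Ideal.Quotient.mkₐ ℝ (vanish S)).comp (MvPolynomial.aeval p) = g := by
        apply MvPolynomial.algHom_ext
        intro i
        simpa using hp i
      exact congrArg (fun f => f q) this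
    -- three distinct variables
    let i0 : Fin s := ⟨0, by omega⟩
    let i1 : Fin s := ⟨1, by omega⟩
    let i2 : Fin s := ⟨2, by omega⟩
    have h01 : i0 ≠ i1 := by simp [i0, i1]
    have h02 : i0 ≠ i2 := by simp [i0, i2]
    have h12 : i1 ≠ i2 := by simp [i1, i2]
    have key : ∀ m : ℕ, (m + 1) ^ 3 ≤ K * (d * (3 * m) + 1) ^ 2 := by
      intro m
      let e : Fin (m + 1) × Fin (m + 1) × Fin (m + 1) → (Fin s →₀ ℕ) := fun a =>
        Finsupp.single i0 (a.1 : ℕ) + Finsupp.single i1 (a.2.1 : ℕ)
          + Finsupp.single i2 (a.2.2 : ℕ)
      have he : Function.Injective e := by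
        intro a b hab
        have e0 := DFunLike.congr_fun hab i0
        have e1 := DFunLike.congr_fun hab i1
        have e2 := DFunLike.congr_fun hab i2
        simp [e, h01, h02, h12, h01.symm, h02.symm, h12.symm] at e0 e1 e2
        exact Prod.ext (Fin.ext e0) (Prod.ext (Fin.ext e1) (Fin.ext e2))
      have hsum : ∀ a, ((e a).sum fun _ e => e) ≤ 3 * m := by
        intro a
        have : ((e a).sum fun _ e => e) = (a.1 : ℕ) + (a.2.1 : ℕ) + (a.2.2 : ℕ) := by
          simp only [e]
          rw [Finsupp.sum_add_index' (by simp) (by simp), Finsupp.sum_add_index' (by simp)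
            (by simp), Finsupp.sum_single_index rfl, Finsupp.sum_single_index rfl,
            Finsupp.sum_single_index rfl]
        rw [this]
        have := a.1.2; have := a.2.1.2; have := a.2.2.2
        omega
      -- the family of functions
      let W : Submodule ℝ (S → ℝ) :=
        (MvPolynomial.restrictTotalDegree (Fin 4) ℝ (d * (3 * m))).map (resHom S).toLinearMap
      have hmem : ∀ a, resHom S (MvPolynomial.aeval p (MvPolynomial.monomial (e a) (1 : ℝ))) ∈ W := by
        intro a
        refine ⟨_, ?_, rfl⟩
        rw [SetLike.mem_coe, MvPolynomial.mem_restrictTotalDegree]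
        exact (totalDegree_aeval_le p hpd (e a) 1).trans (Nat.mul_le_mul_left d (hsum a))
      let v : Fin (m + 1) × Fin (m + 1) × Fin (m + 1) → W := fun a => ⟨_, hmem a⟩
      have hlin : LinearIndependent ℝ v := by
        have h1 : LinearIndependent ℝ (fun a => (MvPolynomial.monomial (e a) (1 : ℝ) :
            MvPolynomial (Fin s) ℝ)) := by
          have := (MvPolynomial.basisMonomials (Fin s) ℝ).linearIndependent.comp e he
          simpa [Function.comp_def] using this
        have h2 : LinearIndependent ℝ (fun a => resHom S (MvPolynomial.aeval p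
            (MvPolynomial.monomial (e a) (1 : ℝ)))) := by
          let L : MvPolynomial (Fin s) ℝ →ₗ[ℝ] (S → ℝ) :=
            (resHom S).toLinearMap ∘ₗ (MvPolynomial.aeval p).toLinearMap
          have hker : LinearMap.ker L = ⊥ := by
            rw [LinearMap.ker_eq_bot']
            intro q hq
            have hq' : MvPolynomial.aeval p q ∈ vanish S := by
              unfold vanish
              rw [RingHom.mem_ker]
              exact hq
            have h3 := hg q
            rw [Ideal.Quotient.eq_zero_iff_mem.mpr hq'] at h3
            exact hginj (by rw [← h3, map_zero])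
          exact h1.map' L hker
        exact LinearIndependent.of_comp W.subtype h2
      have hfin : FiniteDimensional ℝ W := by
        have : FiniteDimensional ℝ (MvPolynomial.restrictTotalDegree (Fin 4) ℝ (d * (3 * m))) :=
          inferInstance
        infer_instance
      have hcard := hlin.fintype_card_le_finrank
      have hc : Fintype.card (Fin (m + 1) × Fin (m + 1) × Fin (m + 1)) = (m + 1) ^ 3 := by
        simp [Fintype.card_prod]; ring
      rw [hc] at hcard
      exact hcard.trans (hK _)
    -- contradiction for large m
    have h1 := key (K * (3 * d + 1) ^ 2)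
    set N := K * (3 * d + 1) ^ 2 with hN
    have hNpos : 1 ≤ N := by
      by_contra h0
      have hN0 : N = 0 := by omega
      rw [hN0] at h1
      have hK0 : K = 0 := by
        rcases Nat.eq_zero_or_pos K with h | h
        · exact h
        · exfalso
          have : 0 < N := by positivity
          omega
      rw [hK0] at h1
      simp at h1
    have h2 : K * (d * (3 * N) + 1) ^ 2 ≤ N * N ^ 2 := by
      have : d * (3 * N) + 1 ≤ (3 * d + 1) * N := by nlinarith
      calc K * (d * (3 * N) + 1) ^ 2 ≤ K * ((3 * d + 1) * N) ^ 2 := by gcongr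
        _ = N * N ^ 2 := by rw [hN]; ring
    have h3 : N * N ^ 2 < (N + 1) ^ 3 := by nlinarith
    omega
  have h1 := ringKrullDim_le_of_isIntegral g.toRingHom hgint
  rw [MvPolynomial.ringKrullDim_of_isNoetherianRing, ringKrullDim_eq_zero_of_field] at h1
  refine h1.trans ?_
  rw [zero_add, Nat.card_eq_fintype_card, Fintype.card_fin]
  exact_mod_cast hs

end MoebAlg
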