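import Mathlib
import Pool.Agent.Lib.MP_d21f85_gt.Defs

/-!
# Vanishing ideals of analytically parametrised sets are prime; a chain of primes
-/

open Filter Topology
open scoped ContDiff

noncomputable section

namespace MoebAlg

lemma two_le_ringKrullDim {R : Type*} [CommRing R] {I P Q : Ideal R} (hI : I.IsPrime)
    (hP : P.IsPrime) (hQ : Q.IsPrime) (h1 : I < P) (h2 : P < Q) :
    2 ≤ ringKrullDim (R ⧸ I) := by
  rw [ringKrullDim_quotient]
  let a : PrimeSpectrum.zeroLocus (R := R) I := ⟨⟨I, hI⟩, fun x hx => hx⟩
  let b : PrimeSpectrum.zeroLocus (R := R) I := ⟨⟨P, hP⟩, fun x hx => h1.le hx⟩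
  let c : PrimeSpectrum.zeroLocus (R := R) I := ⟨⟨Q, hQ⟩, fun x hx => h2.le (h1.le hx)⟩
  have hab : a < b := h1
  have hbc : b < c := h2
  let l : LTSeries (PrimeSpectrum.zeroLocus (R := R) I) :=
    { length := 2
      toFun := ![a, b, c]
      step := by
        intro i
        fin_cases i
        · exact hab
        · exact hbc }
  have := Order.LTSeries.length_le_krullDim l
  exact this

lemma contDiff_eval {V : Type*} [NormedAddCommGroup V] [NormedSpace ℝ V] {X : V → E4}
    (hX : ∀ i, ContDiff ℝ ω (fun x => X x i)) (p : MvPolynomial (Fin 4) ℝ) :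
    ContDiff ℝ ω (fun x => MvPolynomial.eval (fun i => X x i) p) := by
  induction p using MvPolynomial.induction_on with
  | C a => simpa using contDiff_const
  | add p q hp hq => simpa using hp.add hq
  | mul_X p i hp => simpa using hp.mul (hX i)

lemma vanish_range_isPrime {V : Type*} [NormedAddCommGroup V] [NormedSpace ℝ V] {X : V → E4}
    (hX : ∀ i, ContDiff ℝ ω (fun x => X x i)) : (vanish (Set.range X)).IsPrime := by
  refine Ideal.isPrime_iff.mpr ⟨?_, ?_⟩
  · rw [Ideal.ne_top_iff_one, mem_vanish]
    intro h
    have := h (X 0) ⟨0, rfl⟩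
    simp at this
  · intro p q hpq
    by_cases hp : p ∈ vanish (Set.range X)
    · exact Or.inl hp
    · right
      rw [mem_vanish] at hp hpq ⊢
      push Not at hp
      obtain ⟨_, ⟨x0, rfl⟩, hx0⟩ := hp
      have hf := contDiff_eval hX p
      have hg := contDiff_eval hX q
      have hga : AnalyticOnNhd ℝ (fun x => MvPolynomial.eval (fun i => X x i) q) Set.univ := by
        rw [← contDiff_omega_iff_analyticOnNhd]; exact hg
      have hne : ∀ᶠ x in 𝓝 x0, MvPolynomial.eval (fun i => X x i) p ≠ 0 :=
        hf.continuous.continuousAt.eventually_ne hx0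
      have hz : (fun x => MvPolynomial.eval (fun i => X x i) q) =ᶠ[𝓝 x0] (fun _ => (0 : ℝ)) := by
        filter_upwards [hne] with x hx
        have := hpq (X x) ⟨x, rfl⟩
        rw [map_mul] at this
        rcases mul_eq_zero.mp this with h | h
        · exact absurd h hx
        · exact h
      have heq := hga.eq_of_eventuallyEq analyticOnNhd_const hz
      rintro _ ⟨x, rfl⟩
      exact congrFun heq x

end MoebAlg
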