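import Mathlib
import Pool.Agent.Lib.MP_d21f85_gt.Concrete
import Pool.Agent.Lib.MP_d21f85_gt.Hilbert
import Pool.Agent.Lib.MP_d21f85_gt.Krull
import Pool.Agent.Lib.MP_d21f85_gt.Primes

/-!
# The algebraic isometric embedding of the complete flat Moebius strip
-/

open Real
open scoped ContDiff

noncomputable section

namespace MoebAlg

/-- the surface, scaled by `lam` -/
def XX (lam t : ℝ) (p : ℝ × ℝ) : E4 := lam • ribbon.Fh t p

lemma XX_0 (lam t : ℝ) (p : ℝ × ℝ) :
    XX lam t p 0 = lam * (M1 p.2 + t * sg p.1 * D1 p.2) := by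
  unfold XX; rw [ribbon_Fh, smul_vec, vec_0]
lemma XX_1 (lam t : ℝ) (p : ℝ × ℝ) :
    XX lam t p 1 = lam * (M2 p.2 + t * sg p.1 * D2 p.2) := by
  unfold XX; rw [ribbon_Fh, smul_vec, vec_1]
lemma XX_2 (lam t : ℝ) (p : ℝ × ℝ) :
    XX lam t p 2 = lam * (M3 p.2 + t * sg p.1 * D3 p.2) := by
  unfold XX; rw [ribbon_Fh, smul_vec, vec_2]
lemma XX_3 (lam t : ℝ) (p : ℝ × ℝ) : XX lam t p 3 = lam * p.1 ^ 2 := by
  unfold XX; rw [ribbon_Fh, smul_vec, vec_3]

/-! ### forms -/

/-- `M1` as a function of the parameters -/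
def m1 : AA := fun p => M1 p.2
/-- `M2` as a function of the parameters -/
def m2 : AA := fun p => M2 p.2
/-- `M3` as a function of the parameters -/
def m3 : AA := fun p => M3 p.2
/-- `R1` as a function of the parameters -/
def r1 : AA := fun p => R1 p.2
/-- `R2` as a function of the parameters -/
def r2 : AA := fun p => R2 p.2
/-- `R3` as a function of the parameters -/
def r3 : AA := fun p => R3 p.2

lemma m1_mem : m1 ∈ T1 ^ 6 := by
  have e : m1 = kk • ((-4 : ℝ) • (fc ^ 5 * fs ^ 1) - (40 / 3 : ℝ) • (fc ^ 3 * fs ^ 3)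
      - (20 : ℝ) • (fc ^ 1 * fs ^ 5)) := by
    funext p
    simp only [m1, M1, fc, fs, Pi.smul_apply, Pi.sub_apply, Pi.mul_apply,
      Pi.pow_apply, smul_eq_mul]
    ring
  rw [e]
  exact Submodule.smul_mem _ _ (sub_mem (sub_mem (Submodule.smul_mem _ _ (mono_mem 5 1))
    (Submodule.smul_mem _ _ (mono_mem 3 3))) (Submodule.smul_mem _ _ (mono_mem 1 5)))

lemma m2_mem : m2 ∈ T1 ^ 6 := by
  have e : m2 = kk • ((-(10 / 3) : ℝ) • (fc ^ 6 * fs ^ 0) - (10 : ℝ) • (fc ^ 4 * fs ^ 2)
      - (10 : ℝ) • (fc ^ 2 * fs ^ 4) + (22 / 3 : ℝ) • (fc ^ 0 * fs ^ 6)) := by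
    funext p
    simp only [m2, M2, fc, fs, Pi.smul_apply, Pi.sub_apply, Pi.add_apply, Pi.mul_apply,
      Pi.pow_apply, smul_eq_mul]
    ring
  rw [e]
  exact Submodule.smul_mem _ _ (add_mem (sub_mem (sub_mem (Submodule.smul_mem _ _ (mono_mem 6 0))
    (Submodule.smul_mem _ _ (mono_mem 4 2))) (Submodule.smul_mem _ _ (mono_mem 2 4)))
    (Submodule.smul_mem _ _ (mono_mem 0 6)))

lemma m3_mem : m3 ∈ T1 ^ 6 := by
  have e : m3 = (-38 : ℝ) • (fc ^ 5 * fs ^ 1) - (96 : ℝ) • (fc ^ 3 * fs ^ 3)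
      - (58 : ℝ) • (fc ^ 1 * fs ^ 5) := by
    funext p
    simp only [m3, M3, fc, fs, Pi.smul_apply, Pi.sub_apply, Pi.mul_apply,
      Pi.pow_apply, smul_eq_mul]
    ring
  rw [e]
  exact sub_mem (sub_mem (Submodule.smul_mem _ _ (mono_mem 5 1))
    (Submodule.smul_mem _ _ (mono_mem 3 3))) (Submodule.smul_mem _ _ (mono_mem 1 5))

lemma r1_mem : r1 ∈ T1 ^ 7 := by
  have e : r1 = (120 : ℝ) • (fc ^ 6 * fs ^ 1) + (440 : ℝ) • (fc ^ 4 * fs ^ 3)
      - (728 : ℝ) • (fc ^ 2 * fs ^ 5) - (88 : ℝ) • (fc ^ 0 * fs ^ 7) := by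
    funext p
    simp only [r1, R1, fc, fs, Pi.smul_apply, Pi.sub_apply, Pi.add_apply, Pi.mul_apply,
      Pi.pow_apply, smul_eq_mul]
    ring
  rw [e]
  exact sub_mem (sub_mem (add_mem (Submodule.smul_mem _ _ (mono_mem 6 1))
    (Submodule.smul_mem _ _ (mono_mem 4 3))) (Submodule.smul_mem _ _ (mono_mem 2 5)))
    (Submodule.smul_mem _ _ (mono_mem 0 7))

lemma r2_mem : r2 ∈ T1 ^ 7 := by
  have e : r2 = (-8 : ℝ) • (fc ^ 7 * fs ^ 0) - (208 : ℝ) • (fc ^ 5 * fs ^ 2)
      - (1160 : ℝ) • (fc ^ 3 * fs ^ 4) := by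
    funext p
    simp only [r2, R2, fc, fs, Pi.smul_apply, Pi.sub_apply, Pi.mul_apply,
      Pi.pow_apply, smul_eq_mul]
    ring
  rw [e]
  exact sub_mem (sub_mem (Submodule.smul_mem _ _ (mono_mem 7 0))
    (Submodule.smul_mem _ _ (mono_mem 5 2))) (Submodule.smul_mem _ _ (mono_mem 3 4))

lemma r3_mem : r3 ∈ T1 ^ 7 := by
  have e : r3 = (kk / 42) • ((1140 : ℝ) • (fc ^ 6 * fs ^ 1) + (3260 : ℝ) • (fc ^ 4 * fs ^ 3)
      + (5500 : ℝ) • (fc ^ 2 * fs ^ 5) + (3380 : ℝ) • (fc ^ 0 * fs ^ 7)) := by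
    funext p
    simp only [r3, R3, fc, fs, Pi.smul_apply, Pi.add_apply, Pi.mul_apply,
      Pi.pow_apply, smul_eq_mul]
    ring
  rw [e]
  exact Submodule.smul_mem _ _ (add_mem (add_mem (add_mem
    (Submodule.smul_mem _ _ (mono_mem 6 1))
    (Submodule.smul_mem _ _ (mono_mem 4 3))) (Submodule.smul_mem _ _ (mono_mem 2 5)))
    (Submodule.smul_mem _ _ (mono_mem 0 7)))

lemma XX_good (lam t : ℝ) (i : Fin 4) : Good (fun p => XX lam t p i) := by
  fin_cases i
  · have e : (fun p => XX lam t p 0) = lam • (m1 + t • (fy * r1)) := by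
      funext p
      rw [XX_0]
      simp only [Pi.smul_apply, Pi.add_apply, Pi.mul_apply, smul_eq_mul, m1, r1, fy, D1]
      ring
    exact e ▸ good_coord lam t m1_mem r1_mem
  · have e : (fun p => XX lam t p 1) = lam • (m2 + t • (fy * r2)) := by
      funext p
      rw [XX_1]
      simp only [Pi.smul_apply, Pi.add_apply, Pi.mul_apply, smul_eq_mul, m2, r2, fy, D2]
      ring
    exact e ▸ good_coord lam t m2_mem r2_mem
  · have e : (fun p => XX lam t p 2) = lam • (m3 + t • (fy * r3)) := by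
      funext p
      rw [XX_2]
      simp only [Pi.smul_apply, Pi.add_apply, Pi.mul_apply, smul_eq_mul, m3, r3, fy, D3]
      ring
    exact e ▸ good_coord lam t m3_mem r3_mem
  · have e : (fun p => XX lam t p 3) = lam • fh := by
      funext p
      rw [XX_3]
      simp only [Pi.smul_apply, smul_eq_mul, fh]
    exact e ▸ good_h lam

/-- the explicit bound for the Hilbert function -/
theorem hilb_XX (lam t : ℝ) (n : ℕ) :
    2 * hilb (Set.range (XX lam t)) n ≤ (n + 1) * (31 * n + 20) := by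
  refine le_trans (Nat.mul_le_mul_left 2 ?_) (finrank_UU n)
  unfold hilb
  set S := Set.range (XX lam t) with hS
  let ι : (S → ℝ) →ₗ[ℝ] AA := LinearMap.funLeft ℝ ℝ (Set.rangeFactorization (XX lam t))
  have hι : Function.Injective ι :=
    LinearMap.funLeft_injective_of_surjective ℝ ℝ _ Set.rangeFactorization_surjective
  set V := (MvPolynomial.restrictTotalDegree (Fin 4) ℝ n).map (resHom S).toLinearMap with hV
  have h1 : Module.finrank ℝ V = Module.finrank ℝ (V.map ι) :=
    (Submodule.equivMapOfInjective ι hι V).finrank_eq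
  rw [h1]
  refine Submodule.finrank_mono ?_
  refine le_trans ?_ (WW_le_UU n)
  rintro _ ⟨f, ⟨p, hp, rfl⟩, rfl⟩
  have h2 := aeval_mem_WW (XX_good lam t) n hp
  convert h2 using 1
  funext q
  have e1 : ι ((resHom S).toLinearMap p) q
      = MvPolynomial.eval (fun i => XX lam t q i) p := by
    have := resHom_apply S p (Set.rangeFactorization (XX lam t) q)
    exact this
  rw [e1]
  have e2 : ∀ (g : Fin 4 → AA), MvPolynomial.aeval g p q
      = MvPolynomial.eval (fun i => g i q) p := by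
    intro g
    have : ((Pi.evalAlgHom ℝ (fun _ : ℝ × ℝ => ℝ) q).comp (MvPolynomial.aeval g)) p
        = MvPolynomial.aeval (fun i => g i q) p := by
      congr 1
      apply MvPolynomial.algHom_ext
      intro i
      simp
    rw [MvPolynomial.aeval_eq_eval] at this
    exact this
  rw [e2]

/-! ### Krull dimension two -/

lemma contDiff_XX (lam t : ℝ) (i : Fin 4) : ContDiff ℝ ω (fun p => XX lam t p i) := by
  fin_cases i
  · have e : (fun p => XX lam t p 0) = fun p : ℝ × ℝ => lam * (M1 p.2 + t * sg p.1 * D1 p.2) :=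
      funext fun p => XX_0 lam t p
    refine e ▸ ?_
    exact contDiff_const.mul ((contDiff_M1.comp contDiff_snd).add
      ((contDiff_const.mul (contDiff_sg.comp contDiff_fst)).mul (contDiff_D1.comp contDiff_snd)))
  · have e : (fun p => XX lam t p 1) = fun p : ℝ × ℝ => lam * (M2 p.2 + t * sg p.1 * D2 p.2) :=
      funext fun p => XX_1 lam t p
    refine e ▸ ?_
    exact contDiff_const.mul ((contDiff_M2.comp contDiff_snd).add
      ((contDiff_const.mul (contDiff_sg.comp contDiff_fst)).mul (contDiff_D2.comp contDiff_snd)))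
  · have e : (fun p => XX lam t p 2) = fun p : ℝ × ℝ => lam * (M3 p.2 + t * sg p.1 * D3 p.2) :=
      funext fun p => XX_2 lam t p
    refine e ▸ ?_
    exact contDiff_const.mul ((contDiff_M3.comp contDiff_snd).add
      ((contDiff_const.mul (contDiff_sg.comp contDiff_fst)).mul (contDiff_D3.comp contDiff_snd)))
  · have e : (fun p => XX lam t p 3) = fun p : ℝ × ℝ => lam * p.1 ^ 2 :=
      funext fun p => XX_3 lam t p
    refine e ▸ ?_
    exact contDiff_const.mul (contDiff_fst.pow 2)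

lemma vanish_mono {S T : Set E4} (h : S ⊆ T) : vanish T ≤ vanish S := by
  intro p hp
  rw [mem_vanish] at hp ⊢
  exact fun x hx => hp x (h hx)

lemma two_le_dim {lam : ℝ} (hlam : lam ≠ 0) (t : ℝ) :
    2 ≤ ringKrullDim (MvPolynomial (Fin 4) ℝ ⧸ vanish (Set.range (XX lam t))) := by
  have p0 : (vanish (Set.range (XX lam t))).IsPrime :=
    vanish_range_isPrime (contDiff_XX lam t)
  have p1 : (vanish (Set.range fun φ : ℝ => XX lam t (0, φ))).IsPrime :=
    vanish_range_isPrime fun i => (contDiff_XX lam t i).comp (contDiff_prodMk_right 0)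
  have p2 : (vanish (Set.range fun _ : ℝ => XX lam t (0, 0))).IsPrime :=
    vanish_range_isPrime fun i => contDiff_const
  refine two_le_ringKrullDim p0 p1 p2 ?_ ?_
  · rw [SetLike.lt_iff_le_and_exists]
    refine ⟨vanish_mono ?_, MvPolynomial.X 3, ?_, ?_⟩
    · rintro _ ⟨φ, rfl⟩
      exact ⟨(0, φ), rfl⟩
    · rw [mem_vanish]
      rintro _ ⟨φ, rfl⟩
      rw [MvPolynomial.eval_X]
      simp only [XX_3]
      ring
    · rw [mem_vanish]
      intro h
      have := h (XX lam t (1, 0)) ⟨(1, 0), rfl⟩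
      rw [MvPolynomial.eval_X, XX_3] at this
      simp at this
      exact hlam this
  · rw [SetLike.lt_iff_le_and_exists]
    refine ⟨vanish_mono ?_, MvPolynomial.X 1 - MvPolynomial.C (lam * M2 0), ?_, ?_⟩
    · rintro _ ⟨φ, rfl⟩
      exact ⟨0, rfl⟩
    · rw [mem_vanish]
      rintro _ ⟨φ, rfl⟩
      simp [XX_1, sg]
    · rw [mem_vanish]
      intro h
      have := h (XX lam t (0, π / 2)) ⟨π / 2, rfl⟩
      simp [XX_1, sg, M2] at this
      have hk := kk_pos
      have h2 : lam * (kk * (32 / 3)) = 0 := by linear_combination this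
      rcases mul_eq_zero.mp h2 with h3 | h3
      · exact hlam h3
      · nlinarith

/-- The vanishing ideal of the surface is prime and its coordinate ring has dimension two. -/
theorem dim_XX {lam : ℝ} (hlam : lam ≠ 0) (t : ℝ) :
    ringKrullDim (MvPolynomial (Fin 4) ℝ ⧸ vanish (Set.range (XX lam t))) = 2 := by
  refine le_antisymm ?_ (two_le_dim hlam t)
  refine ringKrullDim_le_two (K := 16) fun n => ?_
  have := hilb_XX lam t n
  nlinarith

/-! ### scaling and the final statement -/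

lemma scaled_isometricEmbedding {F : ℝ × ℝ → E4} {a0 lam : ℝ} (hlam : 0 < lam)
    (h : IsIsometricEmbedding a0 F) :
    IsIsometricEmbedding (lam * a0) (fun p => lam • F (lam⁻¹ • p)) where
  smooth := (h.smooth.comp (contDiff_id.const_smul lam⁻¹)).const_smul lam
  isometric := by
    intro p k
    have hF := ((h.smooth.differentiable (by simp)) (lam⁻¹ • p)).hasFDerivAt
    have hs : HasFDerivAt (fun p : ℝ × ℝ => lam⁻¹ • p)
        (lam⁻¹ • ContinuousLinearMap.id ℝ (ℝ × ℝ)) p := (hasFDerivAt_id p).const_smul lam⁻¹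
    have hc := (hF.comp p hs).const_smul lam
    have hd : fderiv ℝ (fun p => lam • F (lam⁻¹ • p)) p
        = lam • (fderiv ℝ F (lam⁻¹ • p)).comp (lam⁻¹ • ContinuousLinearMap.id ℝ (ℝ × ℝ)) :=
      hc.fderiv
    rw [hd]
    have e1 : (lam • (fderiv ℝ F (lam⁻¹ • p)).comp
        (lam⁻¹ • ContinuousLinearMap.id ℝ (ℝ × ℝ))) k
        = lam • fderiv ℝ F (lam⁻¹ • p) (lam⁻¹ • k) := by
      simp
    rw [e1, norm_smul, mul_pow, h.isometric, Real.norm_of_nonneg hlam.le]
    simp only [Prod.smul_fst, Prod.smul_snd, smul_eq_mul]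
    field_simp
  invariant := by
    intro t v
    have h1 := h.invariant (lam⁻¹ * t) (lam⁻¹ * v)
    have e1 : lam⁻¹ • ((-t, v + lam * a0) : ℝ × ℝ) = (-(lam⁻¹ * t), lam⁻¹ * v + a0) := by
      ext
      · simp
      · simp only [Prod.smul_snd, smul_eq_mul]; field_simp
    have e2 : lam⁻¹ • ((t, v) : ℝ × ℝ) = (lam⁻¹ * t, lam⁻¹ * v) := by
      ext <;> simp
    rw [e1, e2, h1]
  injective := by
    intro p q hpq
    have h1 : F (lam⁻¹ • p) = F (lam⁻¹ • q) := by
      have := congrArg (fun x => lam⁻¹ • x) hpq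
      simpa [smul_smul, inv_mul_cancel₀ hlam.ne'] using this
    obtain ⟨j, hj⟩ := h.injective _ _ h1
    refine ⟨j, ?_⟩
    have h2 := congrArg (fun x : ℝ × ℝ => lam • x) hj
    simp only [smul_smul, mul_inv_cancel₀ hlam.ne', one_smul] at h2
    rw [h2]
    ext
    · simp only [Prod.smul_fst, smul_eq_mul]; field_simp
    · simp only [Prod.smul_snd, smul_eq_mul]; field_simp

/-- Existence of algebraic isometric embeddings of every complete flat Moebius strip. -/
theorem exists_algebraic (a : ℝ) (ha : 0 < a) :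
    ∃ F : ℝ × ℝ → E4, IsIsometricEmbedding a F ∧
      (∃ P : Finset (MvPolynomial (Fin 4) ℝ),
        Set.range F ⊆ zeros (P : Set (MvPolynomial (Fin 4) ℝ)) ∧
        vanish (zeros (P : Set (MvPolynomial (Fin 4) ℝ))) = vanish (Set.range F) ∧
        ringKrullDim (MvPolynomial (Fin 4) ℝ ⧸
          vanish (zeros (P : Set (MvPolynomial (Fin 4) ℝ)))) = 2) ∧
      (vanish (Set.range F)).IsPrime ∧
      ∀ n : ℕ, 2 * hilb (Set.range F) n ≤ (n + 1) * (31 * n + 20) := by
  obtain ⟨t, -, F0, hs, hiso, hinv, hinj, hrange⟩ := ribbon.wrap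
  have ha0 : ribbon.a0 = 84 * π := rfl
  have hpos : 0 < ribbon.a0 := by rw [ha0]; positivity
  set lam : ℝ := a / ribbon.a0 with hlam
  have hlampos : 0 < lam := div_pos ha hpos
  have hF0 : IsIsometricEmbedding ribbon.a0 F0 := ⟨hs, hiso, hinv, hinj⟩
  have hF := scaled_isometricEmbedding hlampos hF0
  have hla : lam * ribbon.a0 = a := by rw [hlam]; field_simp
  rw [hla] at hF
  have hr : Set.range (fun p => lam • F0 (lam⁻¹ • p)) = Set.range (XX lam t) := by
    ext x
    constructor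
    · rintro ⟨p, rfl⟩
      have : F0 (lam⁻¹ • p) ∈ Set.range (ribbon.Fh t) := by rw [← hrange]; exact ⟨_, rfl⟩
      obtain ⟨q, hq⟩ := this
      exact ⟨q, by unfold XX; rw [hq]⟩
    · rintro ⟨q, rfl⟩
      have : ribbon.Fh t q ∈ Set.range F0 := by rw [hrange]; exact ⟨_, rfl⟩
      obtain ⟨p, hp⟩ := this
      refine ⟨lam • p, ?_⟩
      simp only [smul_smul, inv_mul_cancel₀ hlampos.ne', one_smul, hp, XX]
  refine ⟨_, hF, ?_, ?_, ?_⟩
  · rw [hr]
    obtain ⟨P, hP1, hP2⟩ := exists_closure (Set.range (XX lam t))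
    exact ⟨P, hP1, hP2, by rw [hP2]; exact dim_XX hlampos.ne' t⟩
  · rw [hr]
    exact vanish_range_isPrime (contDiff_XX lam t)
  · rw [hr]
    exact hilb_XX lam t

end MoebAlg
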